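import Pool.Agent.Q267.Landen.Log

/-!
Evaluation at the fixed point `λ = ω⁴`, `ω² - ω + 2 = 0`, where `λ (1 - λ) = 16`.
-/

namespace Pool.Agent.Q267.Landen

open Polynomial Finset

theorem eval_Ph_hom {K : Type*} [Field K] (m : ℕ) (c : ℕ → K) (A B : K[X]) (q a b : K)
    (hA : A.eval q = a * b) (hB : B.eval q = b) :
    (Ph m c 0 A B).eval q = b ^ m * (Ph m c 0 (X : K[X]) 1).eval a := by
  unfold Ph
  rw [eval_finsetSum, eval_finsetSum, mul_sum]
  refine sum_congr rfl fun k hk => ?_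
  have hk' : k ≤ m := by simpa [Nat.lt_succ_iff] using hk
  rw [eval_mul, eval_mul, eval_C, eval_pow, eval_pow, hA, hB, pow_zero, mul_one, mul_pow,
    eval_mul, eval_mul, eval_C, eval_pow, eval_X, one_pow, eval_one, mul_one]
  have : b ^ m = b ^ k * b ^ (m - k) := by rw [← pow_add]; congr 1; omega
  rw [this]
  ring

theorem Lam_eval {K : Type*} [Field K] (p m : ℕ) [CharP K p] (hpm : p = 2 * m + 1) (s : K) :
    (Lam K m).eval s = (L1 K p).eval s + (L1 K p).eval (-s) := by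
  have key : ∀ n ≤ m, ∑ j ∈ range n, ((j + 1 : ℕ) : K)⁻¹ * s ^ (2 * (j + 1)) =
      ∑ i ∈ range (2 * n), ((i + 1 : ℕ) : K)⁻¹ * (s ^ (i + 1) + (-s) ^ (i + 1)) := by
    intro n hn
    induction n with
    | zero => simp
    | succ n ih =>
      rw [sum_range_succ, show 2 * (n + 1) = 2 * n + 1 + 1 by ring, sum_range_succ, sum_range_succ,
        ih (by omega)]
      have e1 : s ^ (2 * n + 1) + (-s) ^ (2 * n + 1) = 0 := by
        rw [Odd.neg_pow ⟨n, rfl⟩]; ring
      have e2 : s ^ (2 * n + 1 + 1) + (-s) ^ (2 * n + 1 + 1) = 2 * s ^ (2 * n + 1 + 1) := by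
        rw [Even.neg_pow ⟨n + 1, by ring⟩]; ring
      rw [e1, e2]
      have h1 := cast_ne (K := K) p (n + 1) (by omega) (by omega)
      have h2 := cast_ne (K := K) p 2 (by omega) (by omega)
      have e3 : ((2 * n + 1 + 1 : ℕ) : K) = ((2 : ℕ) : K) * ((n + 1 : ℕ) : K) := by
        push_cast; ring
      have e4 : ((2 : ℕ) : K) * ((2 : ℕ) : K)⁻¹ = 1 := mul_inv_cancel₀ h2
      rw [e3, mul_inv]
      rw [show (2 : K) * s ^ (2 * n + 1 + 1) = ((2 : ℕ) : K) * s ^ (2 * n + 1 + 1) by norm_num]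
      linear_combination (- ((n + 1 : ℕ) : K)⁻¹ * s ^ (2 * n + 1 + 1)) * e4
  have h := key m le_rfl
  have hp1 : p - 1 = 2 * m := by omega
  unfold Lam L1
  rw [eval_finsetSum, eval_finsetSum, eval_finsetSum, hp1, ← sum_add_distrib]
  simp only [eval_mul, eval_C, eval_pow, eval_X]
  rw [h]
  refine sum_congr rfl fun i _ => ?_
  ring

theorem Hh_eq {K : Type*} [Field K] (p m : ℕ) [Fact p.Prime] [CharP K p] (hpm : p = 2 * m + 1)
    (h2 : (2 : K) ≠ 0) : Hh K m = (L1 K p).eval (-1) := by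
  have h := Lam_eval (K := K) p m hpm 1
  rw [Lam_one, L1_one p h2, zero_add] at h
  exact h

section points

variable {K : Type*} [Field K] (p m : ℕ) [hp : Fact p.Prime] [CharP K p]

theorem point_I' (hpm : p = 2 * m + 1) (h2 : (2 : K) ≠ 0) (w : K) (hw : w ^ 2 - w + 2 = 0) :
    (w ^ 2) ^ m * (Ph m (cc K m) 0 (X : K[X]) 1).eval (2 - 3 * w) =
      (Ph m (cc K m) 0 (X : K[X]) 1).eval (2 - 3 * w) := by
  have h := congrArg (eval (-1 - w)) (landen (K := K) p m hpm h2)
  rw [eval_Ph_hom m _ (A2 : K[X]) B2 (-1 - w) (2 - 3 * w) (w ^ 2),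
    eval_Ph_hom m _ (A1 : K[X]) 1 (-1 - w) (2 - 3 * w) 1, one_pow, one_mul] at h
  · exact h
  · unfold A1
    rw [eval_sub, eval_pow, eval_X, eval_one]
    linear_combination (-1) * hw
  · exact eval_one
  · unfold A2
    rw [eval_pow, eval_sub, eval_X, eval_one]
    linear_combination (3 * w + 2) * hw
  · unfold B2
    rw [eval_pow, eval_add, eval_X, eval_one]
    ring

theorem point_I (hpm : p = 2 * m + 1) (h2 : (2 : K) ≠ 0) (w : K) (hw : w ^ 2 - w + 2 = 0) :
    (-1 - w) ^ p * ((w ^ 2) ^ m * (Ph m (dd K m) 0 (X : K[X]) 1).eval (2 - 3 * w)) =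
      2 * (Ph m (dd K m) 0 (X : K[X]) 1).eval (2 - 3 * w)
        - (Lam K m).eval (-1 - w) * (Ph m (cc K m) 0 (X : K[X]) 1).eval (2 - 3 * w) := by
  have h := congrArg (eval (-1 - w)) (landen_log (K := K) p m hpm h2)
  have a1 : (A1 : K[X]).eval (-1 - w) = (2 - 3 * w) * 1 := by
    unfold A1
    rw [eval_sub, eval_pow, eval_X, eval_one]
    linear_combination (-1) * hw
  have a2 : (A2 : K[X]).eval (-1 - w) = (2 - 3 * w) * w ^ 2 := by
    unfold A2
    rw [eval_pow, eval_sub, eval_X, eval_one]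
    linear_combination (3 * w + 2) * hw
  have b2 : (B2 : K[X]).eval (-1 - w) = w ^ 2 := by
    unfold B2
    rw [eval_pow, eval_add, eval_X, eval_one]
    ring
  rw [eval_sub, eval_mul, eval_mul, eval_mul, eval_pow, eval_X, eval_ofNat,
    eval_Ph_hom m _ (A2 : K[X]) B2 (-1 - w) (2 - 3 * w) (w ^ 2) a2 b2,
    eval_Ph_hom m _ (A1 : K[X]) 1 (-1 - w) (2 - 3 * w) 1 a1 eval_one,
    eval_Ph_hom m _ (A1 : K[X]) 1 (-1 - w) (2 - 3 * w) 1 a1 eval_one,
    one_pow, one_mul, one_mul] at h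
  exact h

theorem point_II (hpm : p = 2 * m + 1) (h2 : (2 : K) ≠ 0) (l : K) :
    (1 - l ^ p) * ((Sw m (qq K) 0).eval l
        + 2 * Hh K m * ((Ph m (cc K m) 0 (X : K[X]) 1).eval l) ^ 2) =
      2 * (1 - 2 * l ^ p) * ((Ph m (cc K m) 0 (X : K[X]) 1).eval l
        * (Ph m (dd K m) 0 (X : K[X]) 1).eval l)
        + (L1 K p).eval l * ((Ph m (cc K m) 0 (X : K[X]) 1).eval l) ^ 2 := by
  have h := congrArg (eval l) (clausen_log (K := K) p m hpm h2)
  rw [clausen (K := K) p m hpm h2] at h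
  simp only [eval_mul, eval_add, eval_sub, eval_pow, eval_X, eval_one, eval_ofNat, eval_C] at h
  linear_combination h

theorem eval_Sw (v : ℕ → K) (w : K) (hw : w ^ 2 - w + 2 = 0) :
    (Sw m v 0).eval (2 - 3 * w) = ∑ k ∈ range (m + 1), v k * 16 ^ k := by
  unfold Sw W
  rw [eval_finsetSum]
  refine sum_congr rfl fun k _ => ?_
  rw [eval_mul, eval_C, eval_pow, eval_mul, eval_sub, eval_one, eval_X, pow_zero, mul_one]
  congr 2
  linear_combination (-9) * hw

end points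

/-- the sum in `K`. -/
def TS (K : Type*) [Field K] (m : ℕ) : K :=
  ∑ k ∈ range (m + 1), ((k.centralBinom : ℕ) : K) ^ 3 * (Hh K (2 * k) - Hh K k)

theorem six_TS {K : Type*} [Field K] (m : ℕ) (h2 : (2 : K) ≠ 0) (w : K)
    (hw : w ^ 2 - w + 2 = 0) : (Sw m (qq K) 0).eval (2 - 3 * w) = 6 * TS K m := by
  rw [eval_Sw m (qq K) w hw]
  unfold TS
  rw [mul_sum]
  refine sum_congr rfl fun k _ => ?_
  unfold qq vv
  have h16 : (16 : K) ≠ 0 := by
    rw [show (16 : K) = 2 ^ 4 by norm_num]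
    exact pow_ne_zero _ h2
  have e : ((16 : K)⁻¹) ^ k * 16 ^ k = 1 := by
    rw [← mul_pow, inv_mul_cancel₀ h16, one_pow]
  linear_combination (((k.centralBinom : ℕ) : K) ^ 3 * (6 * (Hh K (2 * k) - Hh K k))) * e

variable (p m : ℕ) [hp : Fact p.Prime]

omit hp in
theorem two_ne (h3 : 3 < p) (K : Type*) [Field K] [CharP K p] : (2 : K) ≠ 0 := by
  have := cast_ne (K := K) p 2 (by omega) (by omega)
  exact_mod_cast this

omit hp in
theorem three_ne (h3 : 3 < p) (K : Type*) [Field K] [CharP K p] : (3 : K) ≠ 0 := by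
  have := cast_ne (K := K) p 3 (by omega) (by omega)
  exact_mod_cast this

/-- the split case. -/
theorem split_case (hpm : p = 2 * m + 1) (h3 : 3 < p) (h7 : p ≠ 7) (w : ZMod p)
    (hw : w ^ 2 - w + 2 = 0) : TS (ZMod p) m = 0 := by
  have h2 := two_ne p h3 (ZMod p)
  have hw0 : w ≠ 0 := by
    rintro rfl
    apply h2
    linear_combination hw
  have e0 : (w ^ 2) ^ m = 1 := by
    rw [← pow_mul, show 2 * m = p - 1 by omega]
    exact ZMod.pow_card_sub_one_eq_one hw0
  have e1 := point_I (K := ZMod p) p m hpm h2 w hw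
  have e2 := point_II (K := ZMod p) p m hpm h2 (2 - 3 * w)
  have e3 := log_identity p (by omega) h7 w hw
  rw [ZMod.pow_card, e0, Lam_eval p m hpm] at e1
  rw [ZMod.pow_card, Hh_eq p m hpm h2, six_TS m h2 w hw] at e2
  set F := (Ph m (cc (ZMod p) m) 0 (X : (ZMod p)[X]) 1).eval (2 - 3 * w)
  set G := (Ph m (dd (ZMod p) m) 0 (X : (ZMod p)[X]) 1).eval (2 - 3 * w)
  set T := TS (ZMod p) m
  set a := (L1 (ZMod p) p).eval (-1 - w)
  set b := (L1 (ZMod p) p).eval (-(-1 - w))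
  set c := (L1 (ZMod p) p).eval (2 - 3 * w)
  set h := (L1 (ZMod p) p).eval (-1)
  have n1 : (-1 - w) - 2 ≠ 0 := by
    intro hz
    have h' : ((14 : ℕ) : ZMod p) = 0 := by
      push_cast
      linear_combination hw - (-w + 4) * hz
    rw [ZMod.natCast_eq_zero_iff] at h'
    rw [show 14 = 2 * 7 by norm_num, hp.out.dvd_mul] at h'
    rcases h' with h' | h'
    · have := Nat.le_of_dvd (by norm_num) h'
      omega
    · exact h7 ((Nat.prime_dvd_prime_iff_eq hp.out (by norm_num)).1 h')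
  have n2 : 1 - (2 - 3 * w) ≠ 0 := by
    intro hz
    have : (2 : ZMod p) ^ 4 = 0 := by
      linear_combination (2 - 3 * w) * hz + 9 * hw
    exact h2 (pow_eq_zero_iff (by norm_num) |>.1 this)
  have n6 : (6 : ZMod p) ≠ 0 := by
    rw [show (6 : ZMod p) = 2 * 3 by norm_num]
    exact mul_ne_zero h2 (three_ne p h3 (ZMod p))
  have key : ((-1 - w) - 2) * ((1 - (2 - 3 * w)) * (6 * T)) = 0 := by
    linear_combination ((-1 - w) - 2) * e2 + (2 * (1 - 2 * (2 - 3 * w)) * F) * e1 - F ^ 2 * e3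
  exact (mul_eq_zero.1 ((mul_eq_zero.1 ((mul_eq_zero.1 key).resolve_left n1)).resolve_left
    n2)).resolve_left n6

/-- the inert case. -/
theorem inert_case (hpm : p = 2 * m + 1) (h3 : 3 < p) (h7 : p ≠ 7)
    (hno : ∀ w : ZMod p, w ^ 2 - w + 2 ≠ 0) : TS (ZMod p) m = 0 := by
  let K := AlgebraicClosure (ZMod p)
  have h2 := two_ne p h3 K
  obtain ⟨r, hr⟩ := IsAlgClosed.exists_pow_nat_eq (-7 : K) (n := 2) (by norm_num)
  obtain ⟨w, hw'⟩ : ∃ w : K, 2 * w = 1 + r := 
    ⟨2⁻¹ * (1 + r), by rw [← mul_assoc, mul_inv_cancel₀ h2, one_mul]⟩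
  have hw : w ^ 2 - w + 2 = 0 := by
    have h4 : (2 : K) ^ 2 ≠ 0 := pow_ne_zero _ h2
    apply mul_left_cancel₀ h4
    linear_combination (2 * w + 1 + r - 2) * hw' + hr
  -- Frobenius
  have hfw : (w ^ p) ^ 2 - w ^ p + 2 = 0 := by
    have := congrArg (frobenius K p) hw
    simp only [map_add, map_sub, map_pow, map_zero, map_ofNat, frobenius_def] at this
    exact this
  have hne : w ^ p ≠ w := by
    intro he
    have hmem : w ∈ (⊥ : Subfield K) := (Subfield.mem_bot_iff_pow_eq_self K p).2 he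
    rw [← ZMod.fieldRange_castHom_eq_bot p] at hmem
    obtain ⟨v, hv⟩ := hmem
    apply hno v
    apply (ZMod.castHom (dvd_refl p) K).injective
    rw [map_add, map_sub, map_pow, map_ofNat, map_zero]
    rw [show (ZMod.castHom (dvd_refl p) K) v = w from hv]
    exact hw
  have hfr : w ^ p = 1 - w := by
    have : (w ^ p - w) * (w ^ p - (1 - w)) = 0 := by linear_combination hfw - hw
    exact sub_eq_zero.1 ((mul_eq_zero.1 this).resolve_left (sub_ne_zero.2 hne))
  have e0 := point_I' (K := K) p m hpm h2 w hw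
  have e2 := point_II (K := K) p m hpm h2 (2 - 3 * w)
  rw [six_TS m h2 w hw] at e2
  set F := (Ph m (cc K m) 0 (X : K[X]) 1).eval (2 - 3 * w)
  have hF : F = 0 := by
    have e1 : (w ^ 2) ^ m * w = 1 - w := by
      rw [← hfr, ← pow_mul, ← pow_succ]
      exact congrArg (fun n => w ^ n) hpm.symm
    have e3 : (1 - 2 * w) * F = 0 := by
      linear_combination w * e0 - F * e1
    have n1 : (1 - 2 * w) ≠ 0 := by
      intro hz
      have h' : ((7 : ℕ) : K) = 0 := by
        push_cast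
        linear_combination 4 * hw - (1 - 2 * w) * hz
      rw [CharP.cast_eq_zero_iff K p] at h'
      exact h7 ((Nat.prime_dvd_prime_iff_eq hp.out (by norm_num)).1 h')
    exact (mul_eq_zero.1 e3).resolve_left n1
  rw [hF] at e2
  have n2 : 1 - (2 - 3 * w) ≠ 0 := by
    intro hz
    have : (2 : K) ^ 4 = 0 := by
      linear_combination (2 - 3 * w) * hz + 9 * hw
    exact h2 (pow_eq_zero_iff (by norm_num) |>.1 this)
  have n3 : 1 - (2 - 3 * w) ^ p ≠ 0 := by
    have : 1 - (2 - 3 * w) ^ p = (1 - (2 - 3 * w)) ^ p := by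
      have h := sub_pow_char (p := p) (1 : K) (2 - 3 * w)
      rw [h, one_pow]
    rw [this]
    exact pow_ne_zero _ n2
  have n6 : (6 : K) ≠ 0 := by
    rw [show (6 : K) = 2 * 3 by norm_num]
    exact mul_ne_zero h2 (three_ne p h3 K)
  have hT : TS K m = 0 := by
    have : (1 - (2 - 3 * w) ^ p) * (6 * TS K m) = 0 := by linear_combination e2
    exact (mul_eq_zero.1 ((mul_eq_zero.1 this).resolve_left n3)).resolve_left n6
  apply (ZMod.castHom (dvd_refl p) K).injective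
  rw [map_zero, ← hT]
  unfold TS Hh
  simp only [map_sum, map_mul, map_pow, map_sub, map_natCast, map_inv₀]

/-- **the sum vanishes modulo `p`.** -/
theorem TS_zero (hpm : p = 2 * m + 1) (h3 : 3 < p) (h7 : p ≠ 7) : TS (ZMod p) m = 0 := by
  by_cases h : ∃ w : ZMod p, w ^ 2 - w + 2 = 0
  · obtain ⟨w, hw⟩ := h
    exact split_case p m hpm h3 h7 w hw
  · exact inert_case p m hpm h3 h7 (fun w hw => h ⟨w, hw⟩)

end Pool.Agent.Q267.Landen
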