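import Pool.Agent.Q267.Landen.Second

/-!
Uniqueness for the second order equation and the truncated Landen transformation.
-/

namespace Pool.Agent.Q267.Landen

open Polynomial Finset

variable {K : Type*} [Field K]

theorem cast_ne (p : ℕ) [CharP K p] (j : ℕ) (h0 : 0 < j) (hj : j < p) : ((j : ℕ) : K) ≠ 0 := by
  intro h
  rw [CharP.cast_eq_zero_iff K p] at h
  exact absurd (Nat.le_of_dvd h0 h) (by omega)

theorem dvd_sub_one_iff (Z : K[X]) : (X - 1 : K[X]) ∣ Z ↔ Z.eval 1 = 0 := by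
  rw [← C_1, dvd_iff_isRoot, IsRoot.def]

theorem stepT (p : ℕ) [CharP K p] (h2 : (2 : K) ≠ 0) (Y : K[X]) (hY : TT Y = 0) (j : ℕ)
    (hj : j + 1 < p) (h : (X - 1) ^ (j + 1) ∣ Y) : (X - 1) ^ (j + 2) ∣ Y := by
  obtain ⟨Z, rfl⟩ := h
  set W : K[X] := C ((j + 1 : ℕ) : K) * Z + (X - 1) * derivative Z with hW
  set Q : K[X] := - X * (1 + X) with hQ
  have e1 : derivative ((X - 1) ^ (j + 1) * Z) = (X - 1) ^ j * W := by
    rw [derivative_mul, derivative_pow, derivative_sub, derivative_X, derivative_one, hW,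
      Nat.add_sub_cancel]
    ring
  have e2 : X * (1 - X ^ 2) * derivative ((X - 1) ^ (j + 1) * Z) =
      (X - 1) ^ (j + 1) * (Q * W) := by
    rw [e1, hQ]; ring
  unfold TT at hY
  rw [e2, derivative_mul, derivative_pow, derivative_sub, derivative_X, derivative_one,
    Nat.add_sub_cancel] at hY
  have e3 : (X - 1) ^ j * (C ((j + 1 : ℕ) : K) * (Q * W) + (X - 1) * derivative (Q * W)
      - X * ((X - 1) * Z)) = 0 := by
    rw [← hY]; ring
  have hne : (X - 1 : K[X]) ≠ 0 := by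
    rw [← C_1]; exact X_sub_C_ne_zero 1
  have e4 := (mul_eq_zero.1 e3).resolve_left (pow_ne_zero _ hne)
  have e5 := congrArg (eval (1 : K)) e4
  simp only [eval_add, eval_mul, eval_C, eval_X, eval_zero, hW, hQ, eval_sub, eval_neg,
    eval_one, sub_self, zero_mul, mul_zero, add_zero, sub_zero] at e5
  have hj0 : ((j + 1 : ℕ) : K) ≠ 0 := cast_ne p (j + 1) (by omega) hj
  have e6 : eval 1 Z = 0 := by
    by_contra hne
    apply hne
    have : ((j + 1 : ℕ) : K) * (2 * (((j + 1 : ℕ) : K) * eval 1 Z)) = 0 := by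
      linear_combination -e5
    rcases mul_eq_zero.1 this with h | h
    · exact absurd h hj0
    · rcases mul_eq_zero.1 h with h | h
      · exact absurd h h2
      · exact (mul_eq_zero.1 h).resolve_left hj0
  obtain ⟨T, rfl⟩ := (dvd_sub_one_iff Z).2 e6
  exact ⟨T, by ring⟩

theorem all_stepsT (p : ℕ) [CharP K p] (h2 : (2 : K) ≠ 0) (Y : K[X]) (hY : TT Y = 0)
    (h0 : Y.eval 1 = 0) (j : ℕ) (hj : j < p) : (X - 1) ^ (j + 1) ∣ Y := by
  induction j with
  | zero => rw [zero_add, pow_one]; exact (dvd_sub_one_iff Y).2 h0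
  | succ j ih => exact stepT p h2 Y hY j hj (ih (by omega))

/-- the degree of `Ph`. -/
theorem natDegree_Ph {A B : K[X]} (d : ℕ) (hA : A.natDegree ≤ d) (hB : B.natDegree ≤ d)
    (m : ℕ) (c : ℕ → K) (j : ℕ) : (Ph m c j A B).natDegree ≤ d * m := by
  unfold Ph
  refine natDegree_sum_le_of_forall_le _ _ fun k hk => ?_
  have hk' : k ≤ m := by simpa [Nat.lt_succ_iff] using hk
  refine natDegree_mul_le.trans ?_
  have h1 : (C (c k * (k : K) ^ j) * A ^ k).natDegree ≤ k * d :=
    (natDegree_C_mul_le _ _).trans (natDegree_pow_le.trans (Nat.mul_le_mul_left _ hA))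
  have h2 : (B ^ (m - k)).natDegree ≤ (m - k) * d :=
    natDegree_pow_le.trans (Nat.mul_le_mul_left _ hB)
  calc _ ≤ k * d + (m - k) * d := add_le_add h1 h2
    _ = d * m := by rw [← add_mul, mul_comm]; congr 1; omega

theorem degA1 : (A1 : K[X]).natDegree ≤ 2 := by unfold A1; compute_degree
theorem degA2 : (A2 : K[X]).natDegree ≤ 2 := by
  unfold A2
  have : ((1 - X : K[X])).natDegree ≤ 1 := by compute_degree
  refine natDegree_pow_le.trans ?_
  omega
theorem degB2 : (B2 : K[X]).natDegree ≤ 2 := by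
  unfold B2
  have : ((1 + X : K[X])).natDegree ≤ 1 := by compute_degree
  refine natDegree_pow_le.trans ?_
  omega

theorem eval_Ph_zero (m : ℕ) (c : ℕ → K) (A B : K[X]) (x : K) (hA : A.eval x = 0) :
    (Ph m c 0 A B).eval x = c 0 * (B.eval x) ^ m := by
  unfold Ph
  rw [eval_finsetSum, sum_eq_single 0]
  · simp
  · intro k _ hk
    rw [eval_mul, eval_mul, eval_pow, hA, zero_pow hk]
    simp
  · simp

theorem eq_zero_of_dvd (Y : K[X]) (n : ℕ) (P : K[X]) (hP : P.natDegree = n) (hd : P ∣ Y)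
    (hY : Y.natDegree < n) : Y = 0 := by
  by_contra hne
  have := natDegree_le_of_dvd hd hne
  omega

theorem natDegree_sub_one_pow (n : ℕ) : ((X - 1 : K[X]) ^ n).natDegree = n := by
  rw [← C_1, natDegree_pow, natDegree_X_sub_C, mul_one]

theorem two_pow_two_mul (p m : ℕ) [hp : Fact p.Prime] [CharP K p] (hpm : p = 2 * m + 1) (h2 : (2 : K) ≠ 0) :
    (4 : K) ^ m = 1 := by
  have h : (2 : ZMod p) ≠ 0 := by
    intro h
    apply h2
    have := congrArg (ZMod.castHom (dvd_refl p) K) h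
    rwa [map_ofNat, map_zero] at this
  have h1 := ZMod.pow_card_sub_one_eq_one h
  have h3 := congrArg (ZMod.castHom (dvd_refl p) K) h1
  rw [map_pow, map_one, map_ofNat] at h3
  rw [show (4 : K) = 2 ^ 2 by norm_num, ← pow_mul, ← h3]
  congr 1
  omega

theorem A1_one : (A1 : K[X]).eval 1 = 0 := by
  unfold A1
  rw [eval_sub, eval_pow, eval_X, eval_one]
  ring

theorem A2_one : (A2 : K[X]).eval 1 = 0 := by
  unfold A2
  rw [eval_pow, eval_sub, eval_X, eval_one]
  ring

theorem B2_one : (B2 : K[X]).eval 1 = 4 := by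
  unfold B2
  rw [eval_pow, eval_add, eval_X, eval_one]
  norm_num

variable (p m : ℕ) [hp : Fact p.Prime] [CharP K p]

/-- **The truncated Landen transformation.** -/
theorem landen (hpm : p = 2 * m + 1) (h2 : (2 : K) ≠ 0) :
    Ph m (cc K m) 0 (A2 : K[X]) B2 = Ph m (cc K m) 0 (A1 : K[X]) 1 := by
  have hm' : (2 : K) * m + 1 = 0 := by
    have : ((p : ℕ) : K) = 0 := CharP.cast_eq_zero K p
    rw [hpm] at this
    push_cast at this
    exact this
  rw [← sub_eq_zero]
  have hT : TT (Ph m (cc K m) 0 (A2 : K[X]) B2 - Ph m (cc K m) 0 (A1 : K[X]) 1) = 0 := by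
    rw [TT_sub, TT1 m hm', TT2 m hm' h2, sub_zero]
  have h0 : (Ph m (cc K m) 0 (A2 : K[X]) B2 - Ph m (cc K m) 0 (A1 : K[X]) 1).eval 1 = 0 := by
    rw [eval_sub, eval_Ph_zero m _ _ _ _ A1_one, eval_Ph_zero m _ _ _ _ A2_one]
    rw [B2_one, eval_one, one_pow, two_pow_two_mul p m hpm h2]
    ring
  have hd := all_stepsT p h2 _ hT h0 (p - 1) (by have := hp.out.pos; omega)
  have hp1 : p - 1 + 1 = p := by have := hp.out.pos; omega
  rw [hp1] at hd
  refine eq_zero_of_dvd _ p _ (natDegree_sub_one_pow p) hd ?_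
  refine lt_of_le_of_lt (natDegree_sub_le _ _) ?_
  have d1 := natDegree_Ph (K := K) 2 (degA1) (by rw [natDegree_one]; omega) m (cc K m) 0
  have d2 := natDegree_Ph (K := K) 2 degA2 degB2 m (cc K m) 0
  omega

/-- `Λ = ∑_{j=1}^m X^(2j) / j`. -/
noncomputable def Lam (K : Type*) [Field K] (m : ℕ) : K[X] :=
  ∑ j ∈ range m, C (((j + 1 : ℕ) : K)⁻¹) * X ^ (2 * (j + 1))

theorem dLam (hn : ∀ n : ℕ, 0 < n → n ≤ m → ((n : ℕ) : K) ≠ 0) :
    (1 - X ^ 2) * derivative (Lam K m) = 2 * (X - X ^ (2 * m + 1)) := by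
  have e : derivative (Lam K m) = 2 * X * ∑ j ∈ range m, ((X : K[X]) ^ 2) ^ j := by
    unfold Lam
    rw [derivative_sum, mul_sum]
    refine sum_congr rfl fun j hj => ?_
    have hj' : j < m := by simpa using hj
    have h := hn (j + 1) (by omega) (by omega)
    rw [derivative_C_mul, derivative_X_pow, ← mul_assoc, ← C_mul]
    rw [show (((j + 1 : ℕ) : K)⁻¹ * ((2 * (j + 1) : ℕ) : K)) = 2 by
      push_cast at h ⊢
      field_simp]
    rw [map_ofNat, show 2 * (j + 1) - 1 = 2 * j + 1 by omega, pow_succ, pow_mul]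
    ring
  rw [e]
  have h := mul_neg_geom_sum ((X : K[X]) ^ 2) m
  rw [show (1 - X ^ 2) * (2 * X * ∑ j ∈ range m, ((X : K[X]) ^ 2) ^ j) =
    2 * X * ((1 - X ^ 2) * ∑ j ∈ range m, ((X : K[X]) ^ 2) ^ j) by ring, h, ← pow_mul, pow_succ]
  ring

theorem derivative_X_pow_p (K : Type*) [Field K] (p : ℕ) [CharP K p] :
    derivative ((X : K[X]) ^ p) = 0 := by
  rw [derivative_X_pow, CharP.cast_eq_zero K p, C_0, zero_mul]

theorem Lam_one : (Lam K m).eval 1 = Hh K m := by
  unfold Lam Hh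
  rw [eval_finsetSum]
  refine sum_congr rfl fun j _ => ?_
  rw [eval_mul, eval_C, eval_pow, eval_X, one_pow, mul_one]

theorem Ph_comp (c : ℕ → K) (j : ℕ) (A B q : K[X]) :
    (Ph m c j A B).comp q = Ph m c j (A.comp q) (B.comp q) := by
  unfold Ph
  rw [Polynomial.sum_comp]
  refine sum_congr rfl fun k _ => ?_
  rw [mul_comp, mul_comp, C_comp, pow_comp, pow_comp]

theorem cc_symm (k : ℕ) (hk : k ≤ m) : cc K m (m - k) = cc K m k := by
  unfold cc
  rw [Nat.choose_symm hk]

theorem dd_symm (k : ℕ) (hk : k ≤ m) : dd K m (m - k) = - dd K m k := by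
  unfold dd
  rw [cc_symm m k hk, Nat.sub_sub_self hk]
  ring

theorem Ph_dd_symm (A B : K[X]) : Ph m (dd K m) 0 B A = - Ph m (dd K m) 0 A B := by
  unfold Ph
  rw [← sum_range_reflect, ← sum_neg_distrib]
  refine sum_congr rfl fun k hk => ?_
  have hk' : k ≤ m := by simpa [Nat.lt_succ_iff] using hk
  rw [show m + 1 - 1 - k = m - k by omega, Nat.sub_sub_self hk', dd_symm m k hk', pow_zero,
    pow_zero, mul_one, mul_one, C_neg]
  ring

theorem A1_comp : (A1 : K[X]).comp (-X) = A1 := by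
  unfold A1
  rw [sub_comp, pow_comp, X_comp, one_comp]
  ring

theorem A2_comp : (A2 : K[X]).comp (-X) = B2 := by
  unfold A2 B2
  rw [pow_comp, sub_comp, X_comp, one_comp]
  ring

theorem B2_comp : (B2 : K[X]).comp (-X) = A2 := by
  unfold A2 B2
  rw [pow_comp, add_comp, X_comp, one_comp]
  ring

theorem Lam_comp : (Lam K m).comp (-X) = Lam K m := by
  unfold Lam
  rw [Polynomial.sum_comp]
  refine sum_congr rfl fun k _ => ?_
  rw [mul_comp, C_comp, pow_comp, X_comp]
  rw [pow_mul, pow_mul, neg_sq]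

theorem Lam_natDegree : (Lam K m).natDegree ≤ 2 * m := by
  unfold Lam
  refine natDegree_sum_le_of_forall_le _ _ fun k hk => ?_
  have hk' : k < m := by simpa using hk
  refine (natDegree_C_mul_le _ _).trans ?_
  rw [natDegree_X_pow]
  omega

theorem cop (h2 : (2 : K) ≠ 0) : IsCoprime (X - 1 : K[X]) (X + 1) := by
  refine ⟨C (-(2 : K)⁻¹), C ((2 : K)⁻¹), ?_⟩
  have : (C ((2 : K)⁻¹) : K[X]) * 2 = 1 := by
    rw [show (2 : K[X]) = C 2 by rw [map_ofNat], ← C_mul, inv_mul_cancel₀ h2, C_1]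
  rw [C_neg]
  linear_combination this

theorem natDegree_add_one_pow (n : ℕ) : ((X + 1 : K[X]) ^ n).natDegree = n := by
  rw [← C_1, natDegree_pow, natDegree_X_add_C, mul_one]

/-- **The logarithmic companion of the Landen transformation.** -/
theorem landen_log (hpm : p = 2 * m + 1) (h2 : (2 : K) ≠ 0) :
    X ^ p * Ph m (dd K m) 0 (A2 : K[X]) B2 = 2 * Ph m (dd K m) 0 (A1 : K[X]) 1
      - Lam K m * Ph m (cc K m) 0 (A1 : K[X]) 1 := by
  have hm' : (2 : K) * m + 1 = 0 := by
    have : ((p : ℕ) : K) = 0 := CharP.cast_eq_zero K p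
    rw [hpm] at this
    push_cast at this
    exact this
  have hn : ∀ n : ℕ, 0 < n → n ≤ m → ((n : ℕ) : K) ≠ 0 := fun n h1 h2 =>
    cast_ne p n h1 (by omega)
  have hXp := derivative_X_pow_p K p
  have hL := landen (K := K) p m hpm h2
  have hy0 := TT1 m hm' (K := K)
  have ht1 := TT1' m hm' hn (K := K)
  have ht2 := TT2' m hm' hn (K := K)
  rw [hL] at ht2
  have hdL := dLam m hn (K := K)
  rw [← hpm] at hdL
  set y := Ph m (cc K m) 0 (A1 : K[X]) 1 with hy
  set M1 := Ph m (dd K m) 0 (A1 : K[X]) 1 with hM1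
  set M2 := Ph m (dd K m) 0 (A2 : K[X]) B2 with hM2
  set L := Lam K m with hLdef
  have hLy : TT (L * y) = (4 * X - 2 * X ^ p) * y + 4 * (X ^ 2 - X ^ p * X) * derivative y := by
    unfold TT at hy0 ⊢
    have e1 : X * (1 - X ^ 2) * derivative (L * y) =
        2 * (X ^ 2 - X ^ p * X) * y + L * (X * (1 - X ^ 2) * derivative y) := by
      rw [derivative_mul]
      linear_combination X * y * hdL
    rw [e1, derivative_add, derivative_mul, derivative_mul (f := L)]
    have e2 : derivative (2 * (X ^ 2 - X ^ p * X) : K[X]) = 4 * X - 2 * X ^ p := by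
      rw [derivative_mul, derivative_sub, derivative_mul, hXp, derivative_X_pow, derivative_X,
        derivative_ofNat]
      simp only [Nat.cast_ofNat, map_ofNat]
      ring
    rw [e2]
    linear_combination X * derivative y * hdL + L * hy0
  rw [← sub_eq_zero]
  set D := X ^ p * M2 - (2 * M1 - L * y) with hD
  have hT : TT D = 0 := by
    rw [hD, TT_sub, TT_sub, TT_smul _ _ hXp, TT_smul _ _ (derivative_ofNat 2), hLy, ht1, ht2]
    ring
  have h4 := two_pow_two_mul (K := K) p m hpm h2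
  have hdd0 : dd K m 0 = Hh K m := by
    unfold dd cc
    rw [Nat.choose_zero_right, Nat.sub_zero]
    simp [Hh]
  have hcc0 : cc K m 0 = 1 := by simp [cc]
  have h0 : D.eval 1 = 0 := by
    rw [hD, hM2, hM1, hy, hLdef, eval_sub, eval_sub, eval_mul, eval_mul, eval_mul, eval_pow, eval_X,
      eval_Ph_zero m _ _ _ _ A1_one, eval_Ph_zero m _ _ _ _ A1_one, eval_Ph_zero m _ _ _ _ A2_one,
      Lam_one, B2_one, eval_one, h4, hdd0, hcc0, one_pow, one_pow, eval_ofNat]
    ring
  have hp1 : p - 1 + 1 = p := by have := hp.out.pos; omega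
  have hd := all_stepsT p h2 _ hT h0 (p - 1) (by have := hp.out.pos; omega)
  rw [hp1] at hd
  have hodd : Odd p := ⟨m, hpm⟩
  have hcomp : D.comp (-X) = D := by
    rw [hD, hM2, hM1, hy, hLdef, sub_comp, sub_comp, mul_comp, mul_comp, mul_comp, pow_comp,
      X_comp, Ph_comp, Ph_comp, Ph_comp, A1_comp, A2_comp, B2_comp, Lam_comp, one_comp,
      Ph_dd_symm m A2 B2, hodd.neg_pow]
    rw [show (2 : K[X]) = C 2 by rw [map_ofNat], C_comp]
    ring
  have hd2 : (X + 1) ^ p ∣ D := by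
    obtain ⟨Z, hZ⟩ := hd
    refine ⟨- Z.comp (-X), ?_⟩
    rw [← hcomp, hZ, mul_comp, pow_comp, sub_comp, X_comp, one_comp]
    rw [show (-X - 1 : K[X]) = -(X + 1) by ring, hodd.neg_pow]
    ring
  have hd3 : (X - 1) ^ p * (X + 1) ^ p ∣ D := ((cop h2).pow).mul_dvd hd hd2
  refine eq_zero_of_dvd _ (p + p) _ ?_ hd3 ?_
  · have n1 : ((X : K[X]) - 1) ^ p ≠ 0 := pow_ne_zero _ (by rw [← C_1]; exact X_sub_C_ne_zero 1)
    have n2 : ((X : K[X]) + 1) ^ p ≠ 0 := pow_ne_zero _ (by rw [← C_1]; exact X_add_C_ne_zero 1)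
    rw [natDegree_mul n1 n2, natDegree_sub_one_pow, natDegree_add_one_pow]
  · have d1 := natDegree_Ph (K := K) 2 (degA1) (by rw [natDegree_one]; omega) m (cc K m) 0
    have d2 := natDegree_Ph (K := K) 2 degA2 degB2 m (dd K m) 0
    have d3 := natDegree_Ph (K := K) 2 (degA1) (by rw [natDegree_one]; omega) m (dd K m) 0
    have d4 := Lam_natDegree (K := K) m
    rw [← hy] at d1
    rw [← hM2] at d2
    rw [← hM1] at d3
    rw [← hLdef] at d4
    have f1 : (X ^ p * M2).natDegree ≤ p + 2 * m := by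
      refine natDegree_mul_le.trans ?_
      rw [natDegree_X_pow]
      omega
    have f2 : (2 * M1).natDegree ≤ 2 * m := by
      rw [show (2 : K[X]) = C 2 by rw [map_ofNat]]
      exact (natDegree_C_mul_le _ _).trans d3
    have f3 : (L * y).natDegree ≤ 4 * m := by
      refine natDegree_mul_le.trans ?_
      omega
    have f4 : (2 * M1 - L * y).natDegree ≤ 4 * m := by
      refine (natDegree_sub_le _ _).trans ?_
      omega
    have f5 : D.natDegree ≤ p + 2 * m := by
      refine (natDegree_sub_le _ _).trans ?_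
      omega
    omega

end Pool.Agent.Q267.Landen
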