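import Mathlib

/-!
The truncated Landen transformation modulo a prime, with its logarithmic companion.

`Ph m c j A B = ∑ c_k k^j A^k B^(m-k)` and the first order systems it satisfies for
`c_k = (m choose k)^2` and `c_k = (m choose k)^2 (H_{m-k} - H_k)`.
-/

namespace Pool.Agent.Q267.Landen

open Polynomial Finset

variable {K : Type*} [Field K]

/-- `∑ k ≤ m, c_k k^j A^k B^(m-k)`. -/
noncomputable def Ph (m : ℕ) (c : ℕ → K) (j : ℕ) (A B : K[X]) : K[X] :=
  ∑ k ∈ range (m + 1), C (c k * (k : K) ^ j) * A ^ k * B ^ (m - k)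

/-- harmonic numbers in `K`. -/
def Hh (K : Type*) [Field K] (n : ℕ) : K := ∑ i ∈ range n, ((i + 1 : ℕ) : K)⁻¹

/-- the square of the binomial coefficient. -/
def cc (K : Type*) [Field K] (m k : ℕ) : K := ((m.choose k : ℕ) : K) ^ 2

/-- the logarithmic weight. -/
def dd (K : Type*) [Field K] (m k : ℕ) : K := cc K m k * (Hh K (m - k) - Hh K k)

theorem mul_pow_pred (A : K[X]) (k : ℕ) : A * (C (k : K) * A ^ (k - 1)) = C (k : K) * A ^ k := by
  rcases k with _ | k
  · simp
  · simp only [Nat.add_sub_cancel]; ring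

/-- the derivative of `Ph`. -/
theorem deriv_rel (m : ℕ) (c : ℕ → K) (j : ℕ) (A B : K[X]) :
    A * B * derivative (Ph m c j A B) =
      (derivative A * B - A * derivative B) * Ph m c (j + 1) A B
        + C (m : K) * A * derivative B * Ph m c j A B := by
  unfold Ph
  rw [derivative_sum, mul_sum, mul_sum, mul_sum, ← sum_add_distrib]
  refine sum_congr rfl fun k hk => ?_
  have hk' : k ≤ m := by simpa [Nat.lt_succ_iff] using hk
  have e1 : derivative (C (c k * (k : K) ^ j) * A ^ k * B ^ (m - k)) =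
      C (c k * (k : K) ^ j) *
        ((C (k : K) * A ^ (k - 1) * derivative A) * B ^ (m - k)
          + A ^ k * (C ((m - k : ℕ) : K) * B ^ (m - k - 1) * derivative B)) := by
    rw [derivative_mul, derivative_mul, derivative_C, derivative_pow, derivative_pow]
    ring
  rw [e1]
  have h1 := mul_pow_pred A k
  have h2 := mul_pow_pred B (m - k)
  have h3 : (C ((m - k : ℕ) : K) : K[X]) = C (m : K) - C (k : K) := by
    rw [Nat.cast_sub hk', C_sub]
  have h4 : (C (c k * (k : K) ^ (j + 1)) : K[X]) =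
      C (c k * (k : K) ^ j) * C (k : K) := by
    rw [← C_mul]; congr 1; ring
  rw [h4]
  rw [h3] at h2 ⊢
  linear_combination
    (C (c k * (k : K) ^ j) * derivative A * B ^ (m - k) * B) * h1
    + (C (c k * (k : K) ^ j) * derivative B * A ^ k * A) * h2

theorem cc_succ (m k : ℕ) (hk : k ≤ m) :
    cc K m (k + 1) * ((k : K) + 1) ^ 2 = cc K m k * ((m : K) - k) ^ 2 := by
  have h := Nat.choose_succ_right_eq m k
  have h' : ((m.choose (k + 1) * (k + 1) : ℕ) : K) = ((m.choose k * (m - k) : ℕ) : K) := by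
    rw [h]
  rw [Nat.cast_mul, Nat.cast_mul, Nat.cast_sub hk] at h'
  push_cast at h'
  unfold cc
  rw [← mul_pow, h', mul_pow]

theorem Hh_succ (n : ℕ) : Hh K (n + 1) = Hh K n + ((n : K) + 1)⁻¹ := by
  unfold Hh
  rw [sum_range_succ]
  push_cast
  rfl

/-- shifting the index: a relation between the weights gives a relation between sums. -/
theorem shift (m : ℕ) (u v : ℕ → K) (A B : K[X]) (h0 : u 0 = 0) (hm : v m = 0)
    (h : ∀ k < m, u (k + 1) = v k) :
    B * (∑ k ∈ range (m + 1), C (u k) * A ^ k * B ^ (m - k)) =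
      A * (∑ k ∈ range (m + 1), C (v k) * A ^ k * B ^ (m - k)) := by
  rw [sum_range_succ', sum_range_succ, h0, hm, C_0, zero_mul, zero_mul, zero_mul, zero_mul,
    add_zero, add_zero, mul_sum, mul_sum]
  refine sum_congr rfl fun k hk => ?_
  have hk' : k < m := by simpa using hk
  have e : m - k = (m - (k + 1)) + 1 := by omega
  rw [e, pow_succ B, h k hk']
  ring

/-- the contiguous relation. -/
theorem contig (m : ℕ) (A B : K[X]) :
    B * Ph m (cc K m) 2 A B =
      A * (C (m : K) ^ 2 * Ph m (cc K m) 0 A B - 2 * C (m : K) * Ph m (cc K m) 1 A B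
        + Ph m (cc K m) 2 A B) := by
  have h := shift m (fun k => cc K m k * (k : K) ^ 2)
    (fun k => cc K m k * ((m : K) - k) ^ 2) A B (by simp) (by simp) (by
      intro k hk
      have := cc_succ (K := K) m k hk.le
      push_cast
      exact this)
  have e : (C (m : K) ^ 2 * Ph m (cc K m) 0 A B - 2 * C (m : K) * Ph m (cc K m) 1 A B
        + Ph m (cc K m) 2 A B) =
      ∑ k ∈ range (m + 1), C (cc K m k * ((m : K) - k) ^ 2) * A ^ k * B ^ (m - k) := by
    unfold Ph
    rw [mul_sum, mul_sum, ← sum_sub_distrib, ← sum_add_distrib]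
    refine sum_congr rfl fun k _ => ?_
    simp only [C_mul, C_pow, C_sub]
    ring
  rw [e]
  exact h

theorem dd_succ (m k : ℕ) (hk : k < m) (h1 : ((k : K) + 1) ≠ 0) (h2 : ((m : K) - k) ≠ 0) :
    dd K m (k + 1) * ((k : K) + 1) ^ 2 = dd K m k * ((m : K) - k) ^ 2
      - cc K m k * ((m : K) - k) - cc K m (k + 1) * ((k : K) + 1) := by
  unfold dd
  have e : m - k = (m - (k + 1)) + 1 := by omega
  rw [e, Hh_succ, Hh_succ]
  have e2 : (((m - (k + 1) : ℕ) : K) + 1) = (m : K) - k := by
    rw [Nat.cast_sub (by omega)]; push_cast; ring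
  rw [e2]
  have h := cc_succ (K := K) m k hk.le
  have h1' : ((k : K) + 1) * ((k : K) + 1)⁻¹ = 1 := mul_inv_cancel₀ h1
  have h2' : ((m : K) - k) * ((m : K) - k)⁻¹ = 1 := mul_inv_cancel₀ h2
  linear_combination (Hh K (m - (k + 1)) - Hh K k - ((k : K) + 1)⁻¹) * h
    + (- cc K m k * ((m : K) - k)) * h2' + (-cc K m (k + 1) * ((k : K) + 1)) * h1'
    + ((k : K) + 1)⁻¹ * h

/-- the contiguous relation for the logarithmic weight. -/
theorem contig' (m : ℕ) (hn : ∀ n : ℕ, 0 < n → n ≤ m → ((n : ℕ) : K) ≠ 0) (A B : K[X]) :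
    B * (Ph m (dd K m) 2 A B + Ph m (cc K m) 1 A B) =
      A * (C (m : K) ^ 2 * Ph m (dd K m) 0 A B - 2 * C (m : K) * Ph m (dd K m) 1 A B
        + Ph m (dd K m) 2 A B - C (m : K) * Ph m (cc K m) 0 A B + Ph m (cc K m) 1 A B) := by
  have h := shift m (fun k => dd K m k * (k : K) ^ 2 + cc K m k * (k : K))
    (fun k => dd K m k * ((m : K) - k) ^ 2 - cc K m k * ((m : K) - k)) A B (by simp) (by simp) (by
      intro k hk
      have h1 := hn (k + 1) (by omega) (by omega)
      have h2 := hn (m - k) (by omega) (by omega)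
      rw [Nat.cast_sub hk.le] at h2
      push_cast at h1
      have := dd_succ (K := K) m k hk h1 h2
      push_cast
      linear_combination this)
  have e : (C (m : K) ^ 2 * Ph m (dd K m) 0 A B - 2 * C (m : K) * Ph m (dd K m) 1 A B
        + Ph m (dd K m) 2 A B - C (m : K) * Ph m (cc K m) 0 A B + Ph m (cc K m) 1 A B) =
      ∑ k ∈ range (m + 1), C (dd K m k * ((m : K) - k) ^ 2 - cc K m k * ((m : K) - k))
        * A ^ k * B ^ (m - k) := by
    unfold Ph
    rw [mul_sum, mul_sum, mul_sum, ← sum_sub_distrib, ← sum_add_distrib, ← sum_sub_distrib,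
      ← sum_add_distrib]
    refine sum_congr rfl fun k _ => ?_
    simp only [C_mul, C_pow, C_sub]
    ring
  have e2 : Ph m (dd K m) 2 A B + Ph m (cc K m) 1 A B =
      ∑ k ∈ range (m + 1), C (dd K m k * (k : K) ^ 2 + cc K m k * (k : K)) * A ^ k
        * B ^ (m - k) := by
    unfold Ph
    rw [← sum_add_distrib]
    refine sum_congr rfl fun k _ => ?_
    simp only [C_mul, C_pow, C_add]
    ring
  rw [e, e2]
  exact h

/-- second equation of the system. -/
theorem deriv_rel1 (m : ℕ) (A B : K[X]) (hA : A ≠ 0) :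
    B * (B - A) * derivative (Ph m (cc K m) 1 A B) =
      (derivative A * B - A * derivative B) *
        (C (m : K) ^ 2 * Ph m (cc K m) 0 A B - 2 * C (m : K) * Ph m (cc K m) 1 A B)
        + C (m : K) * derivative B * (B - A) * Ph m (cc K m) 1 A B := by
  apply mul_left_cancel₀ hA
  have h1 := deriv_rel m (cc K m) 1 A B
  have h2 := contig m A B
  rw [show (1 + 1 : ℕ) = 2 from rfl] at h1
  linear_combination (B - A) * h1 + (derivative A * B - A * derivative B) * h2

/-- second equation of the logarithmic system. -/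
theorem deriv_rel2 (m : ℕ) (hn : ∀ n : ℕ, 0 < n → n ≤ m → ((n : ℕ) : K) ≠ 0)
    (A B : K[X]) (hA : A ≠ 0) :
    B * (B - A) * derivative (Ph m (dd K m) 1 A B) =
      (derivative A * B - A * derivative B) *
        (C (m : K) ^ 2 * Ph m (dd K m) 0 A B - 2 * C (m : K) * Ph m (dd K m) 1 A B
          - C (m : K) * Ph m (cc K m) 0 A B + Ph m (cc K m) 1 A B)
        - B * (B * derivative (Ph m (cc K m) 0 A B)
          - C (m : K) * derivative B * Ph m (cc K m) 0 A B)
        + C (m : K) * derivative B * (B - A) * Ph m (dd K m) 1 A B := by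
  apply mul_left_cancel₀ hA
  have h1 := deriv_rel m (dd K m) 1 A B
  have h0 := deriv_rel m (cc K m) 0 A B
  have h2 := contig' m hn A B
  rw [show (1 + 1 : ℕ) = 2 from rfl] at h1
  rw [show (0 + 1 : ℕ) = 1 from rfl] at h0
  linear_combination (B - A) * h1 + (derivative A * B - A * derivative B) * h2 + B * h0

end Pool.Agent.Q267.Landen
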