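import Pool.Agent.Q267.Landen.Third

/-!
Clausen's identity modulo a prime and its logarithmic companion.
-/

namespace Pool.Agent.Q267.Landen

open Polynomial Finset

variable {K : Type*} [Field K]

theorem Sw_shift (m : ℕ) (u v : ℕ → K) (h0 : u 0 = 0) (hm : v m = 0)
    (h : ∀ k < m, u (k + 1) = v k) :
    (∑ k ∈ range (m + 1), C (u k) * W K ^ k) = W K * ∑ k ∈ range (m + 1), C (v k) * W K ^ k := by
  rw [sum_range_succ', sum_range_succ, h0, hm, C_0, zero_mul, zero_mul, add_zero, add_zero, mul_sum]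
  refine sum_congr rfl fun k hk => ?_
  have hk' : k < m := by simpa using hk
  rw [h k hk']
  ring

theorem Sw_rec_vv (m : ℕ) (hm : (2 : K) * m + 1 = 0) (h2 : (2 : K) ≠ 0) :
    2 * Sw m (vv K) 3 = W K * (8 * Sw m (vv K) 3 + 12 * Sw m (vv K) 2 + 6 * Sw m (vv K) 1
      + Sw m (vv K) 0) := by
  have h := Sw_shift m (fun k => 2 * (vv K k * (k : K) ^ 3))
    (fun k => (2 * (k : K) + 1) ^ 3 * vv K k) (by simp) (by simp [hm]) (by
      intro k _
      have := vv_succ h2 k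
      push_cast
      linear_combination this)
  have e1 : 2 * Sw m (vv K) 3 =
      ∑ k ∈ range (m + 1), C (2 * (vv K k * (k : K) ^ 3)) * W K ^ k := by
    unfold Sw
    rw [mul_sum]
    refine sum_congr rfl fun k _ => ?_
    simp only [C_mul, C_pow, map_ofNat]
    ring
  have e2 : 8 * Sw m (vv K) 3 + 12 * Sw m (vv K) 2 + 6 * Sw m (vv K) 1 + Sw m (vv K) 0 =
      ∑ k ∈ range (m + 1), C ((2 * (k : K) + 1) ^ 3 * vv K k) * W K ^ k := by
    unfold Sw
    rw [mul_sum, mul_sum, mul_sum, ← sum_add_distrib, ← sum_add_distrib, ← sum_add_distrib]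
    refine sum_congr rfl fun k _ => ?_
    simp only [C_mul, C_pow, C_add, map_ofNat, C_1]
    ring
  rw [e1, e2]
  exact h

theorem Sw_rec_qq (m : ℕ) (hm : (2 : K) * m + 1 = 0) (h2 : (2 : K) ≠ 0)
    (hn : ∀ n : ℕ, 0 < n → n ≤ 2 * m → ((n : ℕ) : K) ≠ 0) :
    2 * Sw m (qq K) 3 + 6 * Sw m (vv K) 2 =
      W K * (8 * Sw m (qq K) 3 + 12 * Sw m (qq K) 2 + 6 * Sw m (qq K) 1
      + Sw m (qq K) 0 + 24 * Sw m (vv K) 2 + 24 * Sw m (vv K) 1 + 6 * Sw m (vv K) 0) := by
  have h := Sw_shift m (fun k => 2 * (qq K k * (k : K) ^ 3) + 6 * (vv K k * (k : K) ^ 2))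
    (fun k => (2 * (k : K) + 1) ^ 3 * qq K k + 6 * ((2 * (k : K) + 1) ^ 2 * vv K k))
    (by simp) (by simp [hm]) (by
      intro k hk
      have h1 := hn (k + 1) (by omega) (by omega)
      have h3 := hn (2 * k + 1) (by omega) (by omega)
      push_cast at h1 h3
      have := qq_succ h2 k h1 h3
      push_cast
      linear_combination this)
  have e1 : 2 * Sw m (qq K) 3 + 6 * Sw m (vv K) 2 =
      ∑ k ∈ range (m + 1), C (2 * (qq K k * (k : K) ^ 3) + 6 * (vv K k * (k : K) ^ 2))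
        * W K ^ k := by
    unfold Sw
    rw [mul_sum, mul_sum, ← sum_add_distrib]
    refine sum_congr rfl fun k _ => ?_
    simp only [C_mul, C_pow, C_add, map_ofNat]
    ring
  have e2 : 8 * Sw m (qq K) 3 + 12 * Sw m (qq K) 2 + 6 * Sw m (qq K) 1
      + Sw m (qq K) 0 + 24 * Sw m (vv K) 2 + 24 * Sw m (vv K) 1 + 6 * Sw m (vv K) 0 =
      ∑ k ∈ range (m + 1), C ((2 * (k : K) + 1) ^ 3 * qq K k
        + 6 * ((2 * (k : K) + 1) ^ 2 * vv K k)) * W K ^ k := by
    unfold Sw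
    rw [mul_sum, mul_sum, mul_sum, mul_sum, mul_sum, mul_sum, ← sum_add_distrib,
      ← sum_add_distrib, ← sum_add_distrib, ← sum_add_distrib, ← sum_add_distrib,
      ← sum_add_distrib]
    refine sum_congr rfl fun k _ => ?_
    simp only [C_mul, C_pow, C_add, map_ofNat, C_1]
    ring
  rw [e1, e2]
  exact h

theorem DD_sigma : DD (1 - 2 * X : K[X]) = - 2 * W K := by
  rw [DD_sub, DD_mul, DD_two, DD_one, DD_X]; ring

theorem T3P (m : ℕ) (hm : (2 : K) * m + 1 = 0) (h2 : (2 : K) ≠ 0) :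
    T3 (Sw m (vv K) 0) = 0 := by
  have h := Sw_rec_vv m hm h2
  unfold T3
  simp only [DD_Sw, DD_mul, DD_sigma, DD_neg, DD_two, DD_W, zero_add, DD_add]
  set P0 := Sw m (vv K) 0
  set P1 := Sw m (vv K) 1
  set P2 := Sw m (vv K) 2
  set P3 := Sw m (vv K) 3
  unfold W at h ⊢
  linear_combination (1 - 2 * X) * h

theorem T3Q (m : ℕ) (hm : (2 : K) * m + 1 = 0) (h2 : (2 : K) ≠ 0)
    (hn : ∀ n : ℕ, 0 < n → n ≤ 2 * m → ((n : ℕ) : K) ≠ 0) :
    T3 (Sw m (qq K) 0) = -6 * (1 - 2 * X) * DD (DD (Sw m (vv K) 0))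
      + 12 * W K * DD (Sw m (vv K) 0) + 6 * W K * (1 - 2 * X) * Sw m (vv K) 0 := by
  have h := Sw_rec_qq m hm h2 hn
  unfold T3
  simp only [DD_Sw, DD_mul, DD_sigma, DD_neg, DD_two, DD_W, zero_add, DD_add]
  set P0 := Sw m (vv K) 0
  set P1 := Sw m (vv K) 1
  set P2 := Sw m (vv K) 2
  set Q0 := Sw m (qq K) 0
  set Q1 := Sw m (qq K) 1
  set Q2 := Sw m (qq K) 2
  set Q3 := Sw m (qq K) 3
  unfold W at h ⊢
  linear_combination (1 - 2 * X) * h

/-- `Λ₁ = ∑_{i=1}^{p-1} X^i / i`. -/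
noncomputable def L1 (K : Type*) [Field K] (p : ℕ) : K[X] :=
  ∑ i ∈ range (p - 1), C (((i + 1 : ℕ) : K)⁻¹) * X ^ (i + 1)

theorem DD_L1 (p : ℕ) [CharP K p] (hp : 0 < p) : DD (L1 K p) = X - X ^ p := by
  have e : derivative (L1 K p) = ∑ i ∈ range (p - 1), (X : K[X]) ^ i := by
    unfold L1
    rw [derivative_sum]
    refine sum_congr rfl fun j hj => ?_
    have hj' : j < p - 1 := by simpa using hj
    have h := cast_ne (K := K) p (j + 1) (by omega) (by omega)
    rw [derivative_C_mul, derivative_X_pow, ← mul_assoc, ← C_mul, inv_mul_cancel₀ h, C_1, one_mul,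
      Nat.add_sub_cancel]
  unfold DD
  rw [e]
  have h := mul_neg_geom_sum (X : K[X]) (p - 1)
  rw [mul_assoc, h]
  have : p = (p - 1) + 1 := by omega
  conv_rhs => rw [this]
  rw [pow_succ]
  ring

theorem DD_X_pow_p (p : ℕ) [CharP K p] : DD ((X : K[X]) ^ p) = 0 := by
  unfold DD
  rw [derivative_X_pow_p, mul_zero]

theorem T3L1 (p : ℕ) [CharP K p] (hp : 0 < p) (y : K[X]) (hy : T3 y = 0) :
    T3 (L1 K p * y) = 6 * (X - X ^ p) * DD (DD y) + 6 * W K * DD y
      + 2 * W K * (1 - 2 * X) * y - 2 * W K * (X - X ^ p) * y := by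
  unfold T3 at hy ⊢
  simp only [DD_mul, DD_add, DD_L1 p hp, DD_sub, DD_X, DD_X_pow_p, DD_W, sub_zero]
  linear_combination (L1 K p) * hy

/-- evaluation at a zero of `w` kills everything in the image of `DD`. -/
theorem eval_DD (r : K) (hr : r * (1 - r) = 0) (y : K[X]) : (DD y).eval r = 0 := by
  unfold DD
  rw [eval_mul, eval_mul, eval_sub, eval_one, eval_X, hr, zero_mul]

theorem step3 (p : ℕ) [CharP K p] (h2 : (2 : K) ≠ 0) (a b : K[X]) (r : K)
    (hr : r * (1 - r) = 0) (hb : b.eval r ≠ 0) (hab : DD a = a * b) (ha : a ≠ 0)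
    (hdvd : ∀ Z : K[X], Z.eval r = 0 → a ∣ Z) (Y : K[X]) (hY : T3 Y = 0) (j : ℕ)
    (hj : j + 1 < p) (h : a ^ (j + 1) ∣ Y) : a ^ (j + 2) ∣ Y := by
  obtain ⟨Z, rfl⟩ := h
  set N : K[X] := C ((j + 1 : ℕ) : K) with hN
  have key : ∀ Z : K[X], DD (a ^ (j + 1) * Z) = a ^ (j + 1) * (N * b * Z + DD Z) := by
    intro Z
    rw [DD_mul, DD_pow a (j + 1) b hab]
    ring
  unfold T3 at hY
  rw [key, key, key] at hY
  have e : a ^ (j + 1) * (2 * (N * b * (N * b * (N * b * Z + DD Z) + DD (N * b * Z + DD Z))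
      + DD (N * b * (N * b * Z + DD Z) + DD (N * b * Z + DD Z)))
      - 2 * W K * (N * b * Z + DD Z) - W K * (1 - 2 * X) * Z) = 0 := by
    rw [← hY]; ring
  have e4 := (mul_eq_zero.1 e).resolve_left (pow_ne_zero _ ha)
  have e5 := congrArg (eval r) e4
  have hW : (W K).eval r = 0 := by
    unfold W
    rw [eval_mul, eval_sub, eval_one, eval_X, hr]
  simp only [eval_add, eval_sub, eval_mul, eval_DD r hr, hW, eval_zero, eval_ofNat, add_zero,
    mul_zero, zero_mul, sub_zero] at e5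
  have hj0 : N.eval r ≠ 0 := by
    rw [hN, eval_C]
    exact cast_ne p (j + 1) (by omega) hj
  have e6 : eval r Z = 0 := by
    rcases mul_eq_zero.1 e5 with h | h
    · exact absurd h h2
    · have hNb := mul_ne_zero hj0 hb
      exact (mul_eq_zero.1 ((mul_eq_zero.1 ((mul_eq_zero.1 h).resolve_left hNb)).resolve_left
        hNb)).resolve_left hNb
  obtain ⟨T, rfl⟩ := hdvd Z e6
  exact ⟨T, by ring⟩

theorem all_steps3 (p : ℕ) [CharP K p] (h2 : (2 : K) ≠ 0) (a b : K[X]) (r : K)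
    (hr : r * (1 - r) = 0) (hb : b.eval r ≠ 0) (hab : DD a = a * b) (ha : a ≠ 0)
    (hdvd : ∀ Z : K[X], Z.eval r = 0 → a ∣ Z) (Y : K[X]) (hY : T3 Y = 0)
    (h0 : Y.eval r = 0) (j : ℕ) (hj : j < p) : a ^ (j + 1) ∣ Y := by
  induction j with
  | zero => rw [zero_add, pow_one]; exact hdvd Y h0
  | succ j ih => exact step3 p h2 a b r hr hb hab ha hdvd Y hY j hj (ih (by omega))

theorem steps_zero (p : ℕ) [CharP K p] (hp : 0 < p) (h2 : (2 : K) ≠ 0) (Y : K[X])
    (hY : T3 Y = 0) (h0 : Y.eval 0 = 0) : X ^ p ∣ Y := by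
  have h := all_steps3 p h2 (X : K[X]) (1 - X) 0 (by ring) (by simp)
    (by rw [DD_X]; rfl) X_ne_zero (fun Z hZ => by
      rw [X_dvd_iff, coeff_zero_eq_eval_zero]; exact hZ) Y hY h0 (p - 1) (by omega)
  rwa [show p - 1 + 1 = p by omega] at h

theorem steps_one (p : ℕ) [CharP K p] (hp : 0 < p) (h2 : (2 : K) ≠ 0) (Y : K[X])
    (hY : T3 Y = 0) (h0 : Y.eval 1 = 0) : (X - 1) ^ p ∣ Y := by
  have h := all_steps3 p h2 (X - 1 : K[X]) (-X) 1 (by ring) (by simp)
    (by rw [DD_sub, DD_X, DD_one]; unfold W; ring) (by rw [← C_1]; exact X_sub_C_ne_zero 1)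
    (fun Z hZ => (dvd_sub_one_iff Z).2 hZ) Y hY h0 (p - 1) (by omega)
  rwa [show p - 1 + 1 = p by omega] at h

theorem Sw_natDegree (m : ℕ) (v : ℕ → K) (j : ℕ) : (Sw m v j).natDegree ≤ 2 * m := by
  unfold Sw
  refine natDegree_sum_le_of_forall_le _ _ fun k hk => ?_
  have hk' : k ≤ m := by simpa [Nat.lt_succ_iff] using hk
  refine (natDegree_C_mul_le _ _).trans ?_
  refine natDegree_pow_le.trans ?_
  have : (W K).natDegree ≤ 2 := by unfold W; compute_degree
  calc k * (W K).natDegree ≤ k * 2 := Nat.mul_le_mul_left _ this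
    _ ≤ 2 * m := by omega

theorem eval_Sw_zero (m : ℕ) (v : ℕ → K) (r : K) (hr : r * (1 - r) = 0) :
    (Sw m v 0).eval r = v 0 := by
  unfold Sw
  have hW : (W K).eval r = 0 := by
    unfold W
    rw [eval_mul, eval_sub, eval_one, eval_X, hr]
  rw [eval_finsetSum, sum_eq_single 0]
  · simp
  · intro k _ hk
    rw [eval_mul, eval_pow, hW, zero_pow hk, mul_zero]
  · simp

theorem vv0 : vv K 0 = 1 := by simp [vv]
theorem qq0 : qq K 0 = 0 := by simp [qq]

variable (p m : ℕ) [hp : Fact p.Prime] [CharP K p]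

/-- **Clausen's identity, truncated.** -/
theorem clausen (hpm : p = 2 * m + 1) (h2 : (2 : K) ≠ 0) :
    Sw m (vv K) 0 = Ph m (cc K m) 0 (X : K[X]) 1 * Ph m (cc K m) 0 (X : K[X]) 1 := by
  have hm' : (2 : K) * m + 1 = 0 := by
    have : ((p : ℕ) : K) = 0 := CharP.cast_eq_zero K p
    rw [hpm] at this
    push_cast at this
    exact this
  rw [← sub_eq_zero]
  have hcc0 : cc K m 0 = 1 := by simp [cc]
  have h0 : (Sw m (vv K) 0 - Ph m (cc K m) 0 (X : K[X]) 1 * Ph m (cc K m) 0 (X : K[X]) 1).eval 0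
      = 0 := by
    rw [eval_sub, eval_mul, eval_Sw_zero m _ 0 (by ring), eval_Ph_zero m _ _ _ _ eval_X, vv0, hcc0,
      eval_one, one_pow]
    ring
  have hd := steps_zero p hp.out.pos h2 _ (by rw [T3_sub, T3P m hm' h2, T3ff m hm', sub_zero]) h0
  refine eq_zero_of_dvd _ p _ (natDegree_X_pow p) hd ?_
  have d1 := natDegree_Ph (K := K) 1 (natDegree_X_le) (by rw [natDegree_one]; omega) m (cc K m) 0
  have d2 := Sw_natDegree m (vv K) 0
  have d3 : (Ph m (cc K m) 0 (X : K[X]) 1 * Ph m (cc K m) 0 (X : K[X]) 1).natDegree ≤ 2 * m := by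
    refine natDegree_mul_le.trans ?_
    omega
  refine lt_of_le_of_lt (natDegree_sub_le _ _) ?_
  omega

theorem g_one (h2 : (2 : K) ≠ 0) : (Ph m (dd K m) 0 (X : K[X]) 1).eval 1 = 0 := by
  have h := congrArg (eval (1 : K)) (Ph_dd_symm (K := K) m X 1)
  have e : (Ph m (dd K m) 0 (1 : K[X]) X).eval 1 = (Ph m (dd K m) 0 (X : K[X]) 1).eval 1 := by
    unfold Ph
    rw [eval_finsetSum, eval_finsetSum]
    refine sum_congr rfl fun k _ => ?_
    simp
  rw [e, eval_neg] at h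
  have : 2 * (Ph m (dd K m) 0 (X : K[X]) 1).eval 1 = 0 := by linear_combination h
  exact (mul_eq_zero.1 this).resolve_left h2

omit hp in
theorem L1_one (h2 : (2 : K) ≠ 0) : (L1 K p).eval 1 = 0 := by
  have e : (L1 K p).eval 1 = ∑ i ∈ range (p - 1), ((i + 1 : ℕ) : K)⁻¹ := by
    unfold L1
    rw [eval_finsetSum]
    refine sum_congr rfl fun k _ => ?_
    simp
  have e2 : ∑ i ∈ range (p - 1), ((i + 1 : ℕ) : K)⁻¹ =
      - ∑ i ∈ range (p - 1), ((i + 1 : ℕ) : K)⁻¹ := by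
    conv_lhs => rw [← sum_range_reflect]
    rw [← sum_neg_distrib]
    refine sum_congr rfl fun i hi => ?_
    have hi' : i < p - 1 := by simpa using hi
    rw [← inv_neg]
    congr 1
    rw [show p - 1 - 1 - i + 1 = p - (i + 1) by omega, Nat.cast_sub (by omega),
      CharP.cast_eq_zero K p, zero_sub]
  rw [e]
  have : 2 * ∑ i ∈ range (p - 1), ((i + 1 : ℕ) : K)⁻¹ = 0 := by linear_combination e2
  exact (mul_eq_zero.1 this).resolve_left h2

omit hp [CharP K p] in
theorem L1_natDegree : (L1 K p).natDegree ≤ p - 1 := by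
  unfold L1
  refine natDegree_sum_le_of_forall_le _ _ fun k hk => ?_
  have hk' : k < p - 1 := by simpa using hk
  refine (natDegree_C_mul_le _ _).trans ?_
  rw [natDegree_X_pow]
  omega

theorem cop2 : IsCoprime (X : K[X]) (X - 1) := ⟨1, -1, by ring⟩

/-- **The logarithmic companion of Clausen's identity.** -/
theorem clausen_log (hpm : p = 2 * m + 1) (h2 : (2 : K) ≠ 0) :
    (1 - X ^ p) * (Sw m (qq K) 0 + 2 * C (Hh K m) * Sw m (vv K) 0) =
      2 * (1 - 2 * X ^ p) * (Ph m (cc K m) 0 (X : K[X]) 1 * Ph m (dd K m) 0 (X : K[X]) 1)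
        + L1 K p * (Ph m (cc K m) 0 (X : K[X]) 1 * Ph m (cc K m) 0 (X : K[X]) 1) := by
  have hm' : (2 : K) * m + 1 = 0 := by
    have : ((p : ℕ) : K) = 0 := CharP.cast_eq_zero K p
    rw [hpm] at this
    push_cast at this
    exact this
  have hn : ∀ n : ℕ, 0 < n → n ≤ m → ((n : ℕ) : K) ≠ 0 := fun n h1 h2 =>
    cast_ne p n h1 (by omega)
  have hn2 : ∀ n : ℕ, 0 < n → n ≤ 2 * m → ((n : ℕ) : K) ≠ 0 := fun n h1 h2 =>
    cast_ne p n h1 (by omega)
  have hXp := DD_X_pow_p (K := K) p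
  have hcl := clausen (K := K) p m hpm h2
  set f := Ph m (cc K m) 0 (X : K[X]) 1 with hf
  set g := Ph m (dd K m) 0 (X : K[X]) 1 with hg
  have t1 := T3P (K := K) m hm' h2
  have t2 := T3Q (K := K) m hm' h2 hn2
  have t3 := T3fg (K := K) m hm' hn (f * f) rfl
  have t4 := T3L1 p hp.out.pos (f * f) (T3ff (K := K) m hm')
  rw [hcl] at t1 t2 ⊢
  rw [← sub_eq_zero]
  set D := (1 - X ^ p) * (Sw m (qq K) 0 + 2 * C (Hh K m) * (f * f)) -
    (2 * (1 - 2 * X ^ p) * (f * g) + L1 K p * (f * f)) with hD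
  have dz1 : DD (1 - X ^ p : K[X]) = 0 := by rw [DD_sub, DD_one, hXp, sub_zero]
  have dz2 : DD (1 - 2 * X ^ p : K[X]) = 0 := by
    rw [DD_sub, DD_one, DD_smul _ _ DD_two, hXp, mul_zero, sub_zero]
  have dz3 : DD (2 * C (Hh K m) : K[X]) = 0 := by
    rw [DD_smul _ _ DD_two, DD_C, mul_zero]
  have hT : T3 D = 0 := by
    rw [hD, T3_sub, T3_smul _ _ dz1, T3_add, T3_add, T3_smul _ _ dz3, t1, t2, t4,
      show 2 * (1 - 2 * X ^ p) * (f * g) = (1 - 2 * X ^ p) * (2 * (f * g)) by ring,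
      T3_smul _ _ dz2, t3]
    ring
  have hcc0 : cc K m 0 = 1 := by simp [cc]
  have hdd0 : dd K m 0 = Hh K m := by
    unfold dd cc
    rw [Nat.choose_zero_right, Nat.sub_zero]
    simp [Hh]
  have hL0 : (L1 K p).eval 0 = 0 := by
    unfold L1
    rw [eval_finsetSum]
    refine sum_eq_zero fun k _ => ?_
    simp
  have hp0 : p ≠ 0 := hp.out.ne_zero
  have h0 : D.eval 0 = 0 := by
    rw [hD, hf, hg]
    simp only [eval_sub, eval_add, eval_mul, eval_pow, eval_X, eval_one, eval_C, eval_ofNat,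
      eval_Sw_zero m (qq K) 0 (by ring), eval_Ph_zero m _ _ _ _ (eval_X (R := K) (x := 0)), hL0,
      qq0, hcc0, hdd0, zero_pow hp0, one_pow]
    ring
  have h1 : D.eval 1 = 0 := by
    rw [hD]
    simp only [eval_sub, eval_add, eval_mul, eval_pow, eval_X, eval_one, eval_C, eval_ofNat,
      hg, g_one m h2, L1_one p h2, one_pow]
    ring
  have d0 := steps_zero p hp.out.pos h2 _ hT h0
  have d1 := steps_one p hp.out.pos h2 _ hT h1
  have d3 : X ^ p * (X - 1) ^ p ∣ D := ((cop2 (K := K)).pow).mul_dvd d0 d1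
  refine eq_zero_of_dvd _ (p + p) _ ?_ d3 ?_
  · have n1 : (X : K[X]) ^ p ≠ 0 := pow_ne_zero _ X_ne_zero
    have n2 : ((X : K[X]) - 1) ^ p ≠ 0 := pow_ne_zero _ (by rw [← C_1]; exact X_sub_C_ne_zero 1)
    rw [natDegree_mul n1 n2, natDegree_sub_one_pow, natDegree_X_pow]
  · have e1 := natDegree_Ph (K := K) 1 (natDegree_X_le) (by rw [natDegree_one]; omega) m
      (cc K m) 0
    have e2 := natDegree_Ph (K := K) 1 (natDegree_X_le) (by rw [natDegree_one]; omega) m
      (dd K m) 0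
    have e3 := Sw_natDegree m (qq K) 0
    have e4 := L1_natDegree (K := K) p
    rw [← hf] at e1
    rw [← hg] at e2
    have f0 : (X ^ p : K[X]).natDegree = p := natDegree_X_pow p
    have f1 : (1 - X ^ p : K[X]).natDegree ≤ p := by
      refine (natDegree_sub_le _ _).trans ?_
      rw [natDegree_one, f0]; omega
    have f2 : (f * f).natDegree ≤ 2 * m := by
      refine natDegree_mul_le.trans ?_
      omega
    have f3 : (f * g).natDegree ≤ 2 * m := by
      refine natDegree_mul_le.trans ?_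
      omega
    have f4 : (2 * C (Hh K m) * (f * f) : K[X]).natDegree ≤ 2 * m := by
      rw [show (2 * C (Hh K m) : K[X]) = C (2 * Hh K m) by rw [C_mul, map_ofNat]]
      exact (natDegree_C_mul_le _ _).trans f2
    have f5 : (Sw m (qq K) 0 + 2 * C (Hh K m) * (f * f) : K[X]).natDegree ≤ 2 * m := by
      refine (natDegree_add_le _ _).trans ?_
      omega
    have f6 : ((1 - X ^ p) * (Sw m (qq K) 0 + 2 * C (Hh K m) * (f * f)) : K[X]).natDegree
        ≤ p + 2 * m := by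
      refine natDegree_mul_le.trans ?_
      omega
    have f7 : (2 * (1 - 2 * X ^ p) : K[X]).natDegree ≤ p := by
      rw [show (2 * (1 - 2 * X ^ p) : K[X]) = C 2 - C 4 * X ^ p by
        rw [map_ofNat, map_ofNat]; ring]
      refine (natDegree_sub_le _ _).trans ?_
      rw [natDegree_C]
      refine max_le (by omega) ((natDegree_C_mul_le _ _).trans f0.le)
    have f8 : (2 * (1 - 2 * X ^ p) * (f * g) : K[X]).natDegree ≤ p + 2 * m := by
      refine natDegree_mul_le.trans ?_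
      omega
    have f9 : (L1 K p * (f * f)).natDegree ≤ p + 2 * m := by
      refine natDegree_mul_le.trans ?_
      omega
    have f10 : (2 * (1 - 2 * X ^ p) * (f * g) + L1 K p * (f * f) : K[X]).natDegree
        ≤ p + 2 * m := by
      refine (natDegree_add_le _ _).trans ?_
      omega
    have f11 : D.natDegree ≤ p + 2 * m := by
      refine (natDegree_sub_le _ _).trans ?_
      omega
    omega

end Pool.Agent.Q267.Landen
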