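import Pool.Agent.Q267.Landen.Clausen

/-!
The finite logarithm `∑_{i<p} t^i / i` modulo `p` at the points attached to a root of
`X^2 - X + 2` modulo `p`.
-/

namespace Pool.Agent.Q267.Landen

open Polynomial Finset

variable (p : ℕ) [hp : Fact p.Prime]

theorem choose_pred (i : ℕ) (hi : i < p) : (((p - 1).choose i : ℕ) : ZMod p) = (-1) ^ i := by
  induction i with
  | zero => simp
  | succ i ih =>
    have ih := ih (by omega)
    have h1 : (p - 1).choose i + (p - 1).choose (i + 1) = p.choose (i + 1) := by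
      have := Nat.choose_succ_succ (p - 1) i
      rw [Nat.succ_eq_add_one, Nat.succ_eq_add_one, show p - 1 + 1 = p by omega] at this
      exact this.symm
    have h2 : ((p.choose (i + 1) : ℕ) : ZMod p) = 0 := by
      rw [ZMod.natCast_eq_zero_iff]
      exact hp.out.dvd_choose_self (by omega) hi
    rw [← h1, Nat.cast_add, ih] at h2
    rw [pow_succ]
    linear_combination h2

/-- the integral coefficients. -/
def ee (i : ℕ) : ℤ := (-1) ^ i * ((p.choose (i + 1) / p : ℕ) : ℤ)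

/-- the integral version of the finite logarithm. -/
def Lz (t : ℤ) : ℤ := ∑ i ∈ range (p - 1), ee p i * t ^ (i + 1)

theorem p_mul_ee (i : ℕ) (hi : i + 1 < p) : (p : ℤ) * ee p i = (-1) ^ i * (p.choose (i + 1) : ℤ) := by
  have h := hp.out.dvd_choose_self (k := i + 1) (by omega) hi
  obtain ⟨c, hc⟩ := h
  unfold ee
  rw [hc, Nat.mul_div_cancel_left _ hp.out.pos]
  push_cast
  ring

theorem ee_cast (i : ℕ) (hi : i + 1 < p) : ((ee p i : ℤ) : ZMod p) = ((i + 1 : ℕ) : ZMod p)⁻¹ := by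
  have h := hp.out.dvd_choose_self (k := i + 1) (by omega) hi
  obtain ⟨c, hc⟩ := h
  have h1 := Nat.add_one_mul_choose_eq (p - 1) i
  rw [show p - 1 + 1 = p by omega, hc, mul_assoc] at h1
  have h2 := Nat.eq_of_mul_eq_mul_left hp.out.pos h1
  have h3 := choose_pred p i (by omega)
  rw [h2] at h3
  have hne : ((i + 1 : ℕ) : ZMod p) ≠ 0 := cast_ne p (i + 1) (by omega) hi
  apply eq_inv_of_mul_eq_one_left
  unfold ee
  rw [hc, Nat.mul_div_cancel_left _ hp.out.pos]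
  push_cast at h3 ⊢
  rw [mul_assoc, h3, ← mul_pow]
  simp

theorem Lz_cast (t : ℤ) : ((Lz p t : ℤ) : ZMod p) = (L1 (ZMod p) p).eval (t : ZMod p) := by
  unfold Lz L1
  rw [eval_finsetSum, Int.cast_sum]
  refine sum_congr rfl fun i hi => ?_
  have hi' : i < p - 1 := by simpa using hi
  rw [Int.cast_mul, ee_cast p i (by omega), Int.cast_pow, eval_mul, eval_C, eval_pow, eval_X]

theorem p_mul_Lz (hodd : Odd p) (t : ℤ) : (p : ℤ) * Lz p t = 1 - t ^ p - (1 - t) ^ p := by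
  have h : (1 - t) ^ p = 1 - t ^ p - ∑ i ∈ range (p - 1),
      (-1) ^ i * (p.choose (i + 1) : ℤ) * t ^ (i + 1) := by
    have e := add_pow (-t) 1 p
    rw [show -t + 1 = 1 - t by ring] at e
    rw [e]
    have hp1 : p = (p - 1) + 1 := by have := hp.out.pos; omega
    have e2 : ∑ k ∈ range (p + 1), (-t) ^ k * 1 ^ (p - k) * (p.choose k : ℤ) =
        ∑ k ∈ range (p - 1 + 1 + 1), (-t) ^ k * 1 ^ (p - k) * (p.choose k : ℤ) := by
      rw [← hp1]
    rw [e2, sum_range_succ, sum_range_succ', ← hp1, Nat.choose_self, hodd.neg_pow]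
    simp only [one_pow, mul_one, pow_zero, Nat.choose_zero_right, Nat.cast_one]
    rw [show ∀ A : ℤ, A + 1 + -t ^ p = 1 - t ^ p - (-A) by intro A; ring, ← sum_neg_distrib]
    congr 1
    refine sum_congr rfl fun i _ => ?_
    rw [neg_pow t (i + 1), pow_succ (-1 : ℤ)]
    ring
  rw [h]
  unfold Lz
  rw [mul_sum]
  rw [show ∀ A : ℤ, 1 - t ^ p - (1 - t ^ p - A) = A by intro A; ring]
  refine sum_congr rfl fun i hi => ?_
  have hi' : i < p - 1 := by simpa using hi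
  rw [← mul_assoc, p_mul_ee p i (by omega)]

/-- lifting a root of `X^2 - X + 2` to a root modulo `p^2`. -/
theorem hensel (h7 : p ≠ 7) (w : ZMod p) (hw : w ^ 2 - w + 2 = 0) :
    ∃ a : ℤ, (a : ZMod p) = w ∧ (p : ℤ) ^ 2 ∣ a ^ 2 - a + 2 := by
  obtain ⟨a0, ha0⟩ : ∃ a0 : ℤ, (a0 : ZMod p) = w := ZMod.intCast_surjective w
  have h1 : (p : ℤ) ∣ a0 ^ 2 - a0 + 2 := by
    rw [← ZMod.intCast_zmod_eq_zero_iff_dvd]
    push_cast
    rw [ha0]; exact hw
  obtain ⟨u, hu⟩ := h1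
  have h3 : (2 * w - 1) ≠ 0 := by
    intro h
    have h' : ((7 : ℕ) : ZMod p) = 0 := by
      push_cast
      linear_combination 4 * hw - (2 * w - 1) * h
    rw [ZMod.natCast_eq_zero_iff] at h'
    exact h7 ((Nat.prime_dvd_prime_iff_eq hp.out (by norm_num)).1 h')
  obtain ⟨t, ht⟩ : ∃ t : ℤ, (t : ZMod p) = - (u : ZMod p) * (2 * w - 1)⁻¹ :=
    ZMod.intCast_surjective _
  refine ⟨a0 + p * t, by push_cast; rw [ha0, CharP.cast_eq_zero]; ring, ?_⟩
  have h4 : (p : ℤ) ∣ u + t * (2 * a0 - 1) := by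
    rw [← ZMod.intCast_zmod_eq_zero_iff_dvd]
    push_cast
    rw [ha0, ht, mul_assoc, inv_mul_cancel₀ h3]
    ring
  obtain ⟨v, hv⟩ := h4
  refine ⟨v + t ^ 2, ?_⟩
  linear_combination hu + (p : ℤ) * hv

/-- the identity between finite logarithms. -/
theorem log_identity (h2 : p ≠ 2) (h7 : p ≠ 7) (w : ZMod p) (hw : w ^ 2 - w + 2 = 0) :
    ((-1 - w) - 2) * (2 * (L1 (ZMod p) p).eval (-1) * (1 - (2 - 3 * w))
        - (L1 (ZMod p) p).eval (2 - 3 * w))
      + 2 * (1 - 2 * (2 - 3 * w)) * ((L1 (ZMod p) p).eval (-1 - w)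
        + (L1 (ZMod p) p).eval (-(-1 - w))) = 0 := by
  obtain ⟨a, ha, hda⟩ := hensel p h7 w hw
  have hodd : Odd p := hp.out.odd_of_ne_two h2
  set E : ℤ := ((-1 - a) - 2) * (2 * Lz p (-1) * (1 - (2 - 3 * a)) - Lz p (2 - 3 * a))
      + 2 * (1 - 2 * (2 - 3 * a)) * (Lz p (-1 - a) + Lz p (-(-1 - a))) with hE
  have hEc : ((E : ℤ) : ZMod p) = ((-1 - w) - 2) * (2 * (L1 (ZMod p) p).eval (-1) *
        (1 - (2 - 3 * w)) - (L1 (ZMod p) p).eval (2 - 3 * w))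
      + 2 * (1 - 2 * (2 - 3 * w)) * ((L1 (ZMod p) p).eval (-1 - w)
        + (L1 (ZMod p) p).eval (-(-1 - w))) := by
    rw [hE]
    push_cast
    rw [Lz_cast, Lz_cast, Lz_cast, Lz_cast]
    push_cast
    rw [ha]
  rw [← hEc, ZMod.intCast_zmod_eq_zero_iff_dvd]
  have hp0 : (p : ℤ) ≠ 0 := by exact_mod_cast hp.out.ne_zero
  have key : (p : ℤ) * p ∣ p * E := by
    have e1 := p_mul_Lz p hodd (-1)
    have e2 := p_mul_Lz p hodd (2 - 3 * a)
    have e3 := p_mul_Lz p hodd (-1 - a)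
    have e4 := p_mul_Lz p hodd (-(-1 - a))
    have hpE : (p : ℤ) * E = ((-1 - a) - 2) * (2 * (1 - (-1) ^ p - (1 - (-1)) ^ p)
        * (1 - (2 - 3 * a)) - (1 - (2 - 3 * a) ^ p - (1 - (2 - 3 * a)) ^ p))
      + 2 * (1 - 2 * (2 - 3 * a)) * ((1 - (-1 - a) ^ p - (1 - (-1 - a)) ^ p) +
        (1 - (-(-1 - a)) ^ p - (1 - (-(-1 - a))) ^ p)) := by
      rw [hE]
      linear_combination (((-1 - a) - 2) * 2 * (1 - (2 - 3 * a))) * e1 - ((-1 - a) - 2) * e2
        + 2 * (1 - 2 * (2 - 3 * a)) * (e3 + e4)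
    rw [hpE, ← pow_two]
    have hcast : ((p ^ 2 : ℕ) : ℤ) = (p : ℤ) ^ 2 := by push_cast; rfl
    rw [← hcast, ← ZMod.intCast_zmod_eq_zero_iff_dvd]
    -- Fermat
    have fA : (p : ℤ) ∣ a ^ p - a := by
      rw [← ZMod.intCast_zmod_eq_zero_iff_dvd]
      push_cast
      rw [ZMod.pow_card, sub_self]
    have fB : (p : ℤ) ∣ (1 - a) ^ p - (1 - a) := by
      rw [← ZMod.intCast_zmod_eq_zero_iff_dvd]
      push_cast
      rw [ZMod.pow_card, sub_self]
    obtain ⟨d, hd⟩ := fA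
    obtain ⟨e, he⟩ := fB
    have hpp : ((p : ℕ) : ZMod (p ^ 2)) ^ 2 = 0 := by
      have := ZMod.natCast_self (p ^ 2)
      push_cast at this
      exact this
    have ra : ((a : ℤ) : ZMod (p ^ 2)) ^ 2 - (a : ZMod (p ^ 2)) + 2 = 0 := by
      rw [← hcast, ← ZMod.intCast_zmod_eq_zero_iff_dvd] at hda
      push_cast at hda
      exact hda
    have hd' := congrArg (Int.cast : ℤ → ZMod (p ^ 2)) hd
    have he' := congrArg (Int.cast : ℤ → ZMod (p ^ 2)) he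
    push_cast at hd' he' ⊢
    set α : ZMod (p ^ 2) := (a : ZMod (p ^ 2)) with hα
    set δ : ZMod (p ^ 2) := (p : ZMod (p ^ 2)) * (d : ZMod (p ^ 2)) with hδ
    set ε : ZMod (p ^ 2) := (p : ZMod (p ^ 2)) * (e : ZMod (p ^ 2)) with hε
    have hA : α ^ p = α + δ := by linear_combination hd'
    have hB : (1 - α) ^ p = (1 - α) + ε := by linear_combination he'
    have dd0 : δ ^ 2 = 0 := by rw [hδ, mul_pow, hpp, zero_mul]
    have ee0 : ε ^ 2 = 0 := by rw [hε, mul_pow, hpp, zero_mul]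
    have de0 : δ * ε = 0 := by
      rw [hδ, hε]
      linear_combination ((d : ZMod (p ^ 2)) * (e : ZMod (p ^ 2))) * hpp
    have x1 : (2 - 3 * α) = α ^ 4 := by linear_combination (-α ^ 2 - α + 1) * ra
    have x2 : 1 - (2 - 3 * α) = (1 - α) ^ 4 := by linear_combination (-α ^ 2 + 3 * α - 1) * ra
    have x3 : 1 - (-1 - α) = - α ^ 3 := by linear_combination (α + 1) * ra
    have x4 : 1 - (-(-1 - α)) = - α := by ring
    have x5 : (1 : ZMod (p ^ 2)) - (-1) = α * (1 - α) := by linear_combination ra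
    have y1 : (2 - 3 * α) ^ p = (α + δ) ^ 4 := by rw [x1, ← pow_mul, mul_comm, pow_mul, hA]
    have y2 : (1 - (2 - 3 * α)) ^ p = ((1 - α) + ε) ^ 4 := by
      rw [x2, ← pow_mul, mul_comm, pow_mul, hB]
    have y3 : (1 - (-1 - α)) ^ p = - (α + δ) ^ 3 := by
      rw [x3, hodd.neg_pow, ← pow_mul, mul_comm, pow_mul, hA]
    have y4 : (1 - (-(-1 - α))) ^ p = - (α + δ) := by rw [x4, hodd.neg_pow, hA]
    have y5 : (2 : ZMod (p ^ 2)) ^ p = (α + δ) * ((1 - α) + ε) := by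
      rw [show (2 : ZMod (p ^ 2)) = 1 - (-1) by norm_num, x5, mul_pow, hA, hB]
    have y6 : (-(-1 - α)) ^ p = - (-1 - α) ^ p := hodd.neg_pow _
    have y7 : (-1 : ZMod (p ^ 2)) ^ p = -1 := hodd.neg_one_pow
    rw [y1, y2, y3, y4, y5, y6, y7]
    linear_combination (-α * δ ^ 2 - 4 * α ^ 2 * δ - 6 * α ^ 3 + 18 * α ^ 2 - 3 * δ ^ 2 - 18 * α
        - 6 * δ) * dd0
      + (-α * ε ^ 2 + 4 * α ^ 2 * ε - 6 * α ^ 3 + 8 * α * ε - 6 * α ^ 2 - 3 * ε ^ 2 + 30 * α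
        - 12 * ε - 18) * ee0
      + (6 * α ^ 2 + 16 * α - 6) * de0
      + (-4 * α ^ 2 * δ + 4 * α ^ 2 * ε - 2 * α ^ 3 + 14 * α * δ + 10 * α * ε + 2 * α ^ 2
        - 4 * α - 6 * δ - 6 * ε) * ra
  obtain ⟨c, hc⟩ := key
  refine ⟨c, mul_left_cancel₀ hp0 ?_⟩
  rw [hc]; ring

end Pool.Agent.Q267.Landen
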