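import Pool.Agent.Q267.Landen.Basic

/-!
The second order operator and the two pairs of the Landen transformation.
-/

namespace Pool.Agent.Q267.Landen

open Polynomial Finset

variable {K : Type*} [Field K]

/-- the second order operator. -/
noncomputable def TT (y : K[X]) : K[X] :=
  derivative (X * (1 - X ^ 2) * derivative y) - X * y

theorem TT_add (y z : K[X]) : TT (y + z) = TT y + TT z := by
  unfold TT
  rw [derivative_add, mul_add, derivative_add]
  ring

theorem TT_sub (y z : K[X]) : TT (y - z) = TT y - TT z := by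
  unfold TT
  rw [derivative_sub, mul_sub, derivative_sub]
  ring

theorem TT_smul (a y : K[X]) (ha : derivative a = 0) : TT (a * y) = a * TT y := by
  have e : ∀ z : K[X], derivative (a * z) = a * derivative z := fun z => by
    rw [derivative_mul, ha]; ring
  unfold TT
  rw [e, show X * (1 - X ^ 2) * (a * derivative y) = a * (X * (1 - X ^ 2) * derivative y) by ring]
  rw [e]
  ring

section pairs

variable (m : ℕ)

noncomputable def A1 : K[X] := 1 - X ^ 2
noncomputable def A2 : K[X] := (1 - X) ^ 2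
noncomputable def B2 : K[X] := (1 + X) ^ 2

theorem dA1 : derivative (A1 : K[X]) = - 2 * X := by
  unfold A1
  simp only [derivative_sub, derivative_one, derivative_X_pow, map_ofNat, Nat.cast_ofNat]
  ring

theorem dA2 : derivative (A2 : K[X]) = - 2 * (1 - X) := by
  unfold A2
  simp only [derivative_sub, derivative_one, derivative_pow, derivative_X, map_ofNat,
    Nat.cast_ofNat]
  ring

theorem dB2 : derivative (B2 : K[X]) = 2 * (1 + X) := by
  unfold B2
  simp only [derivative_add, derivative_one, derivative_pow, derivative_X, map_ofNat,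
    Nat.cast_ofNat]
  ring

theorem oneSub_ne : (1 - X : K[X]) ≠ 0 := by
  intro h
  have := congrArg (fun f : K[X] => f.eval 0) h
  simp at this

theorem oneAdd_ne : (1 + X : K[X]) ≠ 0 := by
  intro h
  have := congrArg (fun f : K[X] => f.eval 0) h
  simp at this

theorem oneSubSq : (1 - X ^ 2 : K[X]) = (1 - X) * (1 + X) := by ring

theorem oneSubSq_ne : (1 - X ^ 2 : K[X]) ≠ 0 := by
  rw [oneSubSq]; exact mul_ne_zero oneSub_ne oneAdd_ne

theorem A1_ne : (A1 : K[X]) ≠ 0 := oneSubSq_ne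
theorem A2_ne : (A2 : K[X]) ≠ 0 := pow_ne_zero _ oneSub_ne
theorem B2_ne : (B2 : K[X]) ≠ 0 := pow_ne_zero _ oneAdd_ne

theorem CM (hm : (2 : K) * m + 1 = 0) : 2 * (C (m : K) : K[X]) + 1 = 0 := by
  have := congrArg (C : K → K[X]) hm
  rw [C_add, C_mul, C_1, C_0, map_ofNat] at this
  exact this

/-- pair 1, first equation, any weight. -/
theorem p1a (c : ℕ → K) : (1 - X ^ 2) * derivative (Ph m c 0 (A1 : K[X]) 1) =
    -2 * X * Ph m c 1 A1 1 := by
  have h := deriv_rel m c 0 (A1 : K[X]) 1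
  rw [dA1, derivative_one] at h
  unfold A1 at h ⊢
  linear_combination h

theorem p1b : X * derivative (Ph m (cc K m) 1 (A1 : K[X]) 1) =
    -2 * (C (m : K) ^ 2 * Ph m (cc K m) 0 A1 1 - 2 * C (m : K) * Ph m (cc K m) 1 A1 1) := by
  have h := deriv_rel1 m (A1 : K[X]) 1 A1_ne
  rw [dA1, derivative_one] at h
  apply mul_left_cancel₀ (X_ne_zero (R := K))
  unfold A1 at h ⊢
  linear_combination h

theorem p1c (hn : ∀ n : ℕ, 0 < n → n ≤ m → ((n : ℕ) : K) ≠ 0) :
    X * derivative (Ph m (dd K m) 1 (A1 : K[X]) 1) =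
    -2 * (C (m : K) ^ 2 * Ph m (dd K m) 0 A1 1 - 2 * C (m : K) * Ph m (dd K m) 1 A1 1
      - C (m : K) * Ph m (cc K m) 0 A1 1 + Ph m (cc K m) 1 A1 1)
      - X * derivative (Ph m (cc K m) 0 A1 1) + 2 * Ph m (cc K m) 1 A1 1 := by
  have h := deriv_rel2 m hn (A1 : K[X]) 1 A1_ne
  have h0 := p1a m (cc K m)
  rw [dA1, derivative_one] at h
  apply mul_left_cancel₀ (X_ne_zero (R := K))
  unfold A1 at h h0 ⊢
  linear_combination h - h0

/-- `T S = 0` for pair 1. -/
theorem TT1 (hm : (2 : K) * m + 1 = 0) : TT (Ph m (cc K m) 0 (A1 : K[X]) 1) = 0 := by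
  have hM := CM m hm
  have h0 := p1a m (cc K m)
  have h1 := p1b (K := K) m
  unfold TT
  rw [show X * (1 - X ^ 2) * derivative (Ph m (cc K m) 0 (A1 : K[X]) 1) =
    X * (-2 * X * Ph m (cc K m) 1 A1 1) by rw [← h0]; ring]
  simp only [derivative_mul, derivative_X, derivative_neg, derivative_ofNat]
  linear_combination (-2 * X) * h1
    + (2 * C (m : K) * Ph m (cc K m) 0 (A1 : K[X]) 1 * X - Ph m (cc K m) 0 (A1 : K[X]) 1 * X
      - 4 * Ph m (cc K m) 1 (A1 : K[X]) 1 * X) * hM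

/-- `T M` for pair 1. -/
theorem TT1' (hm : (2 : K) * m + 1 = 0) (hn : ∀ n : ℕ, 0 < n → n ≤ m → ((n : ℕ) : K) ≠ 0) :
    TT (Ph m (dd K m) 0 (A1 : K[X]) 1) =
      2 * X * Ph m (cc K m) 0 A1 1 + 2 * X ^ 2 * derivative (Ph m (cc K m) 0 A1 1) := by
  have hM := CM m hm
  have h0 := p1a m (dd K m)
  have h1 := p1c (K := K) m hn
  unfold TT
  rw [show X * (1 - X ^ 2) * derivative (Ph m (dd K m) 0 (A1 : K[X]) 1) =
    X * (-2 * X * Ph m (dd K m) 1 A1 1) by rw [← h0]; ring]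
  simp only [derivative_mul, derivative_X, derivative_neg, derivative_ofNat]
  linear_combination (-2 * X) * h1
    + (2 * C (m : K) * Ph m (dd K m) 0 (A1 : K[X]) 1 * X - Ph m (dd K m) 0 (A1 : K[X]) 1 * X
      - 4 * Ph m (dd K m) 1 (A1 : K[X]) 1 * X - 2 * Ph m (cc K m) 0 (A1 : K[X]) 1 * X) * hM

/-- pair 2, first equation, any weight. -/
theorem p2a (c : ℕ → K) : (1 - X ^ 2) * derivative (Ph m c 0 (A2 : K[X]) B2) =
    -4 * Ph m c 1 A2 B2 + 2 * C (m : K) * (1 - X) * Ph m c 0 A2 B2 := by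
  have h := deriv_rel m c 0 (A2 : K[X]) B2
  rw [dA2, dB2] at h
  apply mul_left_cancel₀ (oneSubSq_ne (K := K))
  unfold A2 B2 at h ⊢
  linear_combination h

theorem C4_ne (h2 : (2 : K) ≠ 0) : (4 : K[X]) ≠ 0 := by
  have : (4 : K[X]) = C 4 := by rw [map_ofNat]
  rw [this, Ne, C_eq_zero]
  have : (4 : K) = 2 * 2 := by norm_num
  rw [this]
  exact mul_ne_zero h2 h2

theorem p2b (h2 : (2 : K) ≠ 0) : X * (1 + X) * derivative (Ph m (cc K m) 1 (A2 : K[X]) B2) =
    -(1 - X) * (C (m : K) ^ 2 * Ph m (cc K m) 0 A2 B2 - 2 * C (m : K) * Ph m (cc K m) 1 A2 B2)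
      + 2 * C (m : K) * X * Ph m (cc K m) 1 A2 B2 := by
  have h := deriv_rel1 m (A2 : K[X]) B2 A2_ne
  rw [dA2, dB2] at h
  apply mul_left_cancel₀ (mul_ne_zero (C4_ne h2) (oneAdd_ne (K := K)))
  unfold A2 B2 at h ⊢
  linear_combination h

theorem p2c (hn : ∀ n : ℕ, 0 < n → n ≤ m → ((n : ℕ) : K) ≠ 0) :
    4 * X * (1 + X) * derivative (Ph m (dd K m) 1 (A2 : K[X]) B2) =
    -4 * (1 - X) * (C (m : K) ^ 2 * Ph m (dd K m) 0 A2 B2
      - 2 * C (m : K) * Ph m (dd K m) 1 A2 B2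
      - C (m : K) * Ph m (cc K m) 0 A2 B2 + Ph m (cc K m) 1 A2 B2)
      - (1 + X) ^ 2 * ((1 + X) * derivative (Ph m (cc K m) 0 A2 B2)
        - 2 * C (m : K) * Ph m (cc K m) 0 A2 B2)
      + 8 * C (m : K) * X * Ph m (dd K m) 1 A2 B2 := by
  have h := deriv_rel2 m hn (A2 : K[X]) B2 A2_ne
  rw [dA2, dB2] at h
  apply mul_left_cancel₀ (oneAdd_ne (K := K))
  unfold A2 B2 at h ⊢
  linear_combination h

/-- `T S = 0` for pair 2. -/
theorem TT2 (hm : (2 : K) * m + 1 = 0) (h2 : (2 : K) ≠ 0) :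
    TT (Ph m (cc K m) 0 (A2 : K[X]) B2) = 0 := by
  have hM := CM m hm
  have h0 := p2a m (cc K m)
  have h1 := p2b (K := K) m h2
  unfold TT
  rw [show X * (1 - X ^ 2) * derivative (Ph m (cc K m) 0 (A2 : K[X]) B2) =
    X * (-4 * Ph m (cc K m) 1 A2 B2 + 2 * C (m : K) * (1 - X) * Ph m (cc K m) 0 A2 B2) by
      rw [← h0]; ring]
  simp only [derivative_mul, derivative_X, derivative_neg, derivative_ofNat, derivative_add,
    derivative_sub, derivative_one, derivative_C]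
  apply mul_left_cancel₀ (oneAdd_ne (K := K))
  set S0 := Ph m (cc K m) 0 (A2 : K[X]) B2
  set S1 := Ph m (cc K m) 1 (A2 : K[X]) B2
  linear_combination (-4) * h1 + 2 * C (m : K) * X * h0
    + (-2 * C (m : K) * S0 * X ^ 2 - S0 * X ^ 2 + 2 * C (m : K) * S0 - S0 * X - 4 * S1 * X
      - 4 * S1) * hM

/-- `T M` for pair 2. -/
theorem TT2' (hm : (2 : K) * m + 1 = 0) (hn : ∀ n : ℕ, 0 < n → n ≤ m → ((n : ℕ) : K) ≠ 0) :
    TT (Ph m (dd K m) 0 (A2 : K[X]) B2) =
      2 * Ph m (cc K m) 0 A2 B2 + 4 * X * derivative (Ph m (cc K m) 0 A2 B2) := by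
  have hM := CM m hm
  have h0 := p2a m (dd K m)
  have h0' := p2a m (cc K m)
  have h1 := p2c (K := K) m hn
  unfold TT
  rw [show X * (1 - X ^ 2) * derivative (Ph m (dd K m) 0 (A2 : K[X]) B2) =
    X * (-4 * Ph m (dd K m) 1 A2 B2 + 2 * C (m : K) * (1 - X) * Ph m (dd K m) 0 A2 B2) by
      rw [← h0]; ring]
  simp only [derivative_mul, derivative_X, derivative_neg, derivative_ofNat, derivative_add,
    derivative_sub, derivative_one, derivative_C]
  apply mul_left_cancel₀ (oneAdd_ne (K := K))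
  set S0 := Ph m (cc K m) 0 (A2 : K[X]) B2
  set S1 := Ph m (cc K m) 1 (A2 : K[X]) B2
  set M0 := Ph m (dd K m) 0 (A2 : K[X]) B2
  set M1 := Ph m (dd K m) 1 (A2 : K[X]) B2
  linear_combination (-1) * h1 + 2 * C (m : K) * X * h0 + (1 - X) * h0'
    + (-2 * C (m : K) * M0 * X ^ 2 - M0 * X ^ 2 + 2 * C (m : K) * M0 - M0 * X - 4 * M1 * X
      - 4 * M1 - 2 * S0 * X - 2 * S0) * hM

end pairs

end Pool.Agent.Q267.Landen
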