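import Pool.Agent.Q267.Landen.Landen

/-!
The third order equation (Clausen) and its logarithmic companion modulo a prime.
-/

namespace Pool.Agent.Q267.Landen

open Polynomial Finset

variable {K : Type*} [Field K]

/-- the derivation `X (1 - X) d/dX`. -/
noncomputable def DD (y : K[X]) : K[X] := X * (1 - X) * derivative y

/-- the variable `w`. -/
noncomputable def W (K : Type*) [Field K] : K[X] := X * (1 - X)

theorem DD_mul (a b : K[X]) : DD (a * b) = DD a * b + a * DD b := by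
  unfold DD; rw [derivative_mul]; ring

theorem DD_add (a b : K[X]) : DD (a + b) = DD a + DD b := by
  unfold DD; rw [derivative_add]; ring

theorem DD_sub (a b : K[X]) : DD (a - b) = DD a - DD b := by
  unfold DD; rw [derivative_sub]; ring

theorem DD_neg (a : K[X]) : DD (-a) = - DD a := by
  unfold DD; rw [derivative_neg]; ring

theorem DD_C (a : K) : DD (C a) = 0 := by
  unfold DD; rw [derivative_C, mul_zero]

theorem DD_two : DD (2 : K[X]) = 0 := by
  rw [show (2 : K[X]) = C 2 by rw [map_ofNat], DD_C]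

theorem DD_one : DD (1 : K[X]) = 0 := by
  rw [← C_1, DD_C]

theorem DD_X : DD (X : K[X]) = W K := by
  unfold DD W; rw [derivative_X, mul_one]

theorem DD_W : DD (W K) = W K * (1 - 2 * X) := by
  conv_lhs => rw [W]
  rw [DD_mul, DD_sub, DD_one, DD_X]
  unfold W
  ring

theorem DD_pow (a : K[X]) (n : ℕ) (b : K[X]) (h : DD a = a * b) :
    DD (a ^ n) = C (n : K) * a ^ n * b := by
  induction n with
  | zero => rw [pow_zero, DD_one]; simp
  | succ n ih =>
    rw [pow_succ, DD_mul, ih, h, Nat.cast_succ, C_add, C_1]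
    ring

theorem DD_smul (a y : K[X]) (ha : DD a = 0) : DD (a * y) = a * DD y := by
  rw [DD_mul, ha]; ring

/-- the third order operator. -/
noncomputable def T3 (y : K[X]) : K[X] :=
  2 * DD (DD (DD y)) - 2 * W K * DD y - W K * (1 - 2 * X) * y

theorem T3_add (y z : K[X]) : T3 (y + z) = T3 y + T3 z := by
  unfold T3; simp only [DD_add]; ring

theorem T3_sub (y z : K[X]) : T3 (y - z) = T3 y - T3 z := by
  unfold T3; simp only [DD_sub]; ring

theorem T3_smul (a y : K[X]) (ha : DD a = 0) : T3 (a * y) = a * T3 y := by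
  unfold T3; simp only [DD_smul a _ ha]; ring

section weights

variable (m : ℕ)

theorem DD_Ph (c : ℕ → K) (j : ℕ) :
    DD (Ph m c j (X : K[X]) 1) = (1 - X) * Ph m c (j + 1) X 1 := by
  have h := deriv_rel m c j (X : K[X]) 1
  rw [derivative_X, derivative_one] at h
  unfold DD
  linear_combination (1 - X) * h

/-- second order equation for `f`. -/
theorem DD2f (hm : (2 : K) * m + 1 = 0) :
    4 * DD (DD (Ph m (cc K m) 0 (X : K[X]) 1)) = W K * Ph m (cc K m) 0 (X : K[X]) 1 := by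
  have hM := CM m hm
  have h := contig m (X : K[X]) 1
  rw [DD_Ph, DD_mul, DD_Ph, DD_sub, DD_one, DD_X]
  rw [show (0 + 1 : ℕ) = 1 from rfl, show (1 + 1 : ℕ) = 2 from rfl]
  set F0 := Ph m (cc K m) 0 (X : K[X]) 1
  set F1 := Ph m (cc K m) 1 (X : K[X]) 1
  set F2 := Ph m (cc K m) 2 (X : K[X]) 1
  unfold W
  linear_combination (4 * (1 - X)) * h + X * (1 - X) * ((2 * C (m : K) - 1) * F0 - 4 * F1) * hM

/-- second order equation for `g`. -/
theorem DD2g (hm : (2 : K) * m + 1 = 0) (hn : ∀ n : ℕ, 0 < n → n ≤ m → ((n : ℕ) : K) ≠ 0) :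
    4 * DD (DD (Ph m (dd K m) 0 (X : K[X]) 1)) = W K * Ph m (dd K m) 0 (X : K[X]) 1
      + 2 * W K * Ph m (cc K m) 0 (X : K[X]) 1 - 4 * (1 - X) * DD (Ph m (cc K m) 0 (X : K[X]) 1)
      := by
  have hM := CM m hm
  have h := contig' m hn (X : K[X]) 1
  rw [DD_Ph, DD_mul, DD_Ph, DD_sub, DD_one, DD_X, DD_Ph]
  rw [show (0 + 1 : ℕ) = 1 from rfl, show (1 + 1 : ℕ) = 2 from rfl]
  set F0 := Ph m (cc K m) 0 (X : K[X]) 1
  set F1 := Ph m (cc K m) 1 (X : K[X]) 1
  set G0 := Ph m (dd K m) 0 (X : K[X]) 1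
  set G1 := Ph m (dd K m) 1 (X : K[X]) 1
  set G2 := Ph m (dd K m) 2 (X : K[X]) 1
  unfold W
  linear_combination (4 * (1 - X)) * h + X * (1 - X) * ((2 * C (m : K) - 1) * G0 - 4 * G1
    - 2 * F0) * hM

/-- `T3 (f^2) = 0`. -/
theorem T3ff (hm : (2 : K) * m + 1 = 0) :
    T3 (Ph m (cc K m) 0 (X : K[X]) 1 * Ph m (cc K m) 0 (X : K[X]) 1) = 0 := by
  have h := DD2f (K := K) m hm
  set f := Ph m (cc K m) 0 (X : K[X]) 1
  have h' : 4 * DD (DD (DD f)) = W K * (1 - 2 * X) * f + W K * DD f := by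
    have e := congrArg DD h
    rw [DD_mul, DD_mul, DD_W, show (4 : K[X]) = C 4 by rw [map_ofNat], DD_C] at e
    rw [map_ofNat] at e
    linear_combination e
  unfold T3
  simp only [DD_mul, DD_add]
  linear_combination f * h' + 3 * DD f * h

/-- `T3 (2 f g)`. -/
theorem T3fg (hm : (2 : K) * m + 1 = 0) (hn : ∀ n : ℕ, 0 < n → n ≤ m → ((n : ℕ) : K) ≠ 0)
    (y : K[X])
    (hy : y = Ph m (cc K m) 0 (X : K[X]) 1 * Ph m (cc K m) 0 (X : K[X]) 1) :
    T3 (2 * (Ph m (cc K m) 0 (X : K[X]) 1 * Ph m (dd K m) 0 (X : K[X]) 1)) =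
      -2 * (3 * (1 - X) * DD (DD y) - 3 * W K * DD y - W K * (1 - 2 * X) * y
        - W K * (1 - X) * y) := by
  have h := DD2f (K := K) m hm
  have hg := DD2g (K := K) m hm hn
  set f := Ph m (cc K m) 0 (X : K[X]) 1
  set g := Ph m (dd K m) 0 (X : K[X]) 1
  have h' : 4 * DD (DD (DD f)) = W K * (1 - 2 * X) * f + W K * DD f := by
    have e := congrArg DD h
    rw [DD_mul, DD_mul, DD_W, show (4 : K[X]) = C 4 by rw [map_ofNat], DD_C] at e
    rw [map_ofNat] at e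
    linear_combination e
  have hg' : 4 * DD (DD (DD g)) = W K * (1 - 2 * X) * g + W K * DD g
      + 2 * (W K * (1 - 2 * X)) * f + 2 * W K * DD f + 4 * W K * DD f
      - 4 * (1 - X) * DD (DD f) := by
    have e := congrArg DD hg
    rw [DD_sub, DD_add, DD_mul, DD_mul, DD_mul, DD_mul, DD_mul, DD_mul, DD_sub, DD_X, DD_W,
      show (4 : K[X]) = C 4 by rw [map_ofNat], DD_C, DD_two, DD_one] at e
    rw [map_ofNat] at e
    linear_combination e
  rw [T3_smul _ _ DD_two, hy]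
  unfold T3
  simp only [DD_mul, DD_add]
  linear_combination g * h' + (3 * DD g + 2 * (1 - X) * f) * h + 3 * DD f * hg + f * hg'

/-- `∑ v_k k^j w^k`. -/
noncomputable def Sw (v : ℕ → K) (j : ℕ) : K[X] :=
  ∑ k ∈ range (m + 1), C (v k * (k : K) ^ j) * W K ^ k

theorem DD_Sw (v : ℕ → K) (j : ℕ) : DD (Sw m v j) = (1 - 2 * X) * Sw m v (j + 1) := by
  unfold Sw
  have hs : DD (∑ k ∈ range (m + 1), C (v k * (k : K) ^ j) * W K ^ k) =
      ∑ k ∈ range (m + 1), DD (C (v k * (k : K) ^ j) * W K ^ k) := by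
    unfold DD
    rw [derivative_sum, mul_sum]
  rw [hs, mul_sum]
  refine sum_congr rfl fun k _ => ?_
  rw [DD_mul, DD_C, DD_pow _ _ _ DD_W]
  simp only [C_mul, C_pow]
  ring

/-- the cubes of the central binomial coefficients. -/
def vv (K : Type*) [Field K] (k : ℕ) : K := ((k.centralBinom : ℕ) : K) ^ 3 * ((16 : K)⁻¹) ^ k

/-- the logarithmic weight. -/
def qq (K : Type*) [Field K] (k : ℕ) : K := vv K k * (6 * (Hh K (2 * k) - Hh K k))

theorem vv_succ (h2 : (2 : K) ≠ 0) (k : ℕ) :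
    2 * (((k : K) + 1) ^ 3 * vv K (k + 1)) = (2 * (k : K) + 1) ^ 3 * vv K k := by
  have h := Nat.succ_mul_centralBinom_succ k
  have h' : (((k + 1) * (k + 1).centralBinom : ℕ) : K) =
    ((2 * (2 * k + 1) * k.centralBinom : ℕ) : K) := by rw [h]
  push_cast at h'
  unfold vv
  have h16 : (16 : K) * (16 : K)⁻¹ = 1 := by
    apply mul_inv_cancel₀
    rw [show (16 : K) = 2 ^ 4 by norm_num]
    exact pow_ne_zero _ h2
  rw [pow_succ ((16 : K)⁻¹)]
  have e : 2 * (((k : K) + 1) ^ 3 * (((k + 1).centralBinom : K) ^ 3 *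
      ((16 : K)⁻¹ ^ k * (16 : K)⁻¹))) = 2 * ((((k : K) + 1) * ((k + 1).centralBinom : K)) ^ 3 *
      ((16 : K)⁻¹ ^ k * (16 : K)⁻¹)) := by ring
  rw [e, h']
  linear_combination ((2 * (k : K) + 1) ^ 3 * (k.centralBinom : K) ^ 3 * (16 : K)⁻¹ ^ k) * h16

theorem qq_succ (h2 : (2 : K) ≠ 0) (k : ℕ) (h1 : ((k : K) + 1) ≠ 0)
    (h3 : (2 * (k : K) + 1) ≠ 0) :
    2 * (((k : K) + 1) ^ 3 * qq K (k + 1)) + 6 * (((k : K) + 1) ^ 2 * vv K (k + 1)) =
      (2 * (k : K) + 1) ^ 3 * qq K k + 6 * ((2 * (k : K) + 1) ^ 2 * vv K k) := by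
  have h := vv_succ h2 k
  unfold qq
  rw [show 2 * (k + 1) = 2 * k + 1 + 1 by ring, Hh_succ (2 * k + 1), Hh_succ (2 * k), Hh_succ k]
  have e1 : (((2 * k + 1 : ℕ) : K) + 1)⁻¹ = 2⁻¹ * ((k : K) + 1)⁻¹ := by
    rw [← mul_inv]; congr 1; push_cast; ring
  have e2 : (((2 * k : ℕ) : K) + 1)⁻¹ = (2 * (k : K) + 1)⁻¹ := by push_cast; rfl
  rw [e1, e2]
  have i1 : ((k : K) + 1) * ((k : K) + 1)⁻¹ = 1 := mul_inv_cancel₀ h1
  have i2 : (2 : K) * 2⁻¹ = 1 := mul_inv_cancel₀ h2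
  have i3 : (2 * (k : K) + 1) * (2 * (k : K) + 1)⁻¹ = 1 := mul_inv_cancel₀ h3
  set a := ((k : K) + 1)⁻¹
  set b := (2 : K)⁻¹
  set c := (2 * (k : K) + 1)⁻¹
  set n := (k : K)
  linear_combination (6 * (Hh K (2 * k) - Hh K k + c + b * a - a)) * h
    + (6 * (2 * n + 1) ^ 2 * vv K k) * i3 - 6 * (n + 1) ^ 2 * vv K (k + 1) * i1
    + (3 * (2 * n + 1) ^ 3 * vv K k * a) * i2 + 3 * a * h

end weights

end Pool.Agent.Q267.Landen
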